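import Mathlib

/-!
# Symmetric cocycles of exponent `p` are coboundaries

`k` an infinite field of characteristic `p`.

* `laz_arr`: the arrays of coefficients, one variable;
* `laz_one`: a polynomial symmetric cocycle `f(x, y)`, `x, y ∈ k`, with `∑ f(i x, x) = 0`
  (`i < p`), is `g(x + y) - g(x) - g(y)`, `g` a polynomial;
* `laz`: the same for `x, y ∈ k ^ b`.
-/

set_option autoImplicit false

open Polynomial Finset

namespace Pool.Agent.TWGS

variable {k : Type*} [Field k] {p : ℕ} [hp : Fact p.Prime] [CharP k p]

/-- `C(p m, i)`, `i` prime to `p`. -/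
theorem choose_zero (m i : ℕ) (hi : ¬ p ∣ i) : (((p * m).choose i : ℕ) : k) = 0 := by
  rw [CharP.cast_eq_zero_iff k p]
  have h1 := Choose.choose_modEq_choose_mod_mul_choose_div_nat (n := p * m) (k := i) (p := p)
  have h2 : (p * m % p).choose (i % p) = 0 := by
    rw [Nat.mul_mod_right]
    exact Nat.choose_eq_zero_of_lt (Nat.pos_of_ne_zero fun h => hi (Nat.dvd_of_mod_eq_zero h))
  rw [h2, zero_mul] at h1
  exact (Nat.modEq_zero_iff_dvd).1 h1

/-- `C(p m, p i) = C(m, i)`. -/
theorem choose_mul (m i : ℕ) : (((p * m).choose (p * i) : ℕ) : k) = ((m.choose i : ℕ) : k) := by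
  rw [CharP.cast_eq_iff_mod_eq k p]
  have h1 := Choose.choose_modEq_choose_mod_mul_choose_div_nat (n := p * m) (k := p * i) (p := p)
  rw [Nat.mul_mod_right, Nat.mul_mod_right, Nat.choose_self, one_mul,
    Nat.mul_div_cancel_left _ hp.out.pos, Nat.mul_div_cancel_left _ hp.out.pos] at h1
  exact h1

/-- `C(p m - 1, p - 1) = 1`. -/
theorem choose_last (m : ℕ) (hm : 1 ≤ m) : (((p * m - 1).choose (p - 1) : ℕ) : k) = 1 := by
  have hp1 := hp.out.one_lt
  obtain ⟨q, rfl⟩ : ∃ q, m = q + 1 := ⟨m - 1, by omega⟩
  have e : p * (q + 1) - 1 = (p - 1) + p * q := by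
    rw [Nat.mul_add, Nat.mul_one]
    omega
  have h1 := Choose.choose_modEq_choose_mod_mul_choose_div_nat (n := p * (q + 1) - 1) (k := p - 1)
    (p := p)
  rw [e, Nat.add_mul_mod_self_left, Nat.mod_eq_of_lt (by omega : p - 1 < p),
    Nat.choose_self, Nat.div_eq_of_lt (by omega : p - 1 < p), Nat.choose_zero_right] at h1
  rw [e]
  have h2 : ((((p - 1 + p * q).choose (p - 1) : ℕ)) : k) = ((1 : ℕ) : k) := by
    rw [CharP.cast_eq_iff_mod_eq k p]
    exact h1
  rw [h2, Nat.cast_one]

/-- Sums of powers. -/
theorem sum_pow_lt {i : ℕ} (hi : i < p - 1) : ∑ s ∈ range p, (s : k) ^ i = 0 := by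
  have h1 := FiniteField.sum_pow_lt_card_sub_one (K := ZMod p) i (by rwa [ZMod.card])
  have h2 : ∑ s ∈ range p, (s : ZMod p) ^ i = 0 := by
    rw [← h1]
    refine Finset.sum_bij (fun s _ => (s : ZMod p)) (fun _ _ => Finset.mem_univ _) ?_ ?_ ?_
    · intro s hs t ht h
      rw [mem_range] at hs ht
      rw [ZMod.natCast_eq_natCast_iff, Nat.ModEq, Nat.mod_eq_of_lt hs, Nat.mod_eq_of_lt ht] at h
      exact h
    · intro x _
      exact ⟨x.val, mem_range.2 (ZMod.val_lt x), ZMod.natCast_zmod_val x⟩
    · intro s _
      rfl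
  have h3 := congrArg (ZMod.castHom (dvd_refl p) k) h2
  rw [map_sum, map_zero] at h3
  rw [← h3]
  exact Finset.sum_congr rfl fun s _ => by rw [map_pow, map_natCast]

theorem sum_pow_last : ∑ s ∈ range p, (s : k) ^ (p - 1) = -1 := by
  have hp1 := hp.out.one_lt
  have h1 : ∀ s ∈ range p, (s : k) ^ (p - 1) = if s = 0 then 0 else 1 := by
    intro s hs
    rw [mem_range] at hs
    split_ifs with h
    · rw [h, Nat.cast_zero, zero_pow (by omega)]
    · have h2 : (s : ZMod p) ≠ 0 := by
        rw [Ne, ZMod.natCast_eq_zero_iff]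
        exact fun h3 => absurd (Nat.le_of_dvd (Nat.pos_of_ne_zero h) h3) (by omega)
      have h3 := congrArg (ZMod.castHom (dvd_refl p) k) (ZMod.pow_card_sub_one_eq_one h2)
      rwa [map_pow, map_natCast, map_one] at h3
  rw [Finset.sum_congr rfl h1]
  have h2 : ∑ s ∈ range p, (if s = 0 then (0 : k) else 1) = ∑ s ∈ range p, (1 : k) -
      ∑ s ∈ range p, (if s = 0 then (1 : k) else 0) := by
    rw [← Finset.sum_sub_distrib]
    exact Finset.sum_congr rfl fun s _ => by split_ifs <;> ring
  rw [h2, Finset.sum_ite_eq' (range p) 0, if_pos (mem_range.2 (by omega)), Finset.sum_const,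
    card_range, nsmul_eq_mul, mul_one, CharP.cast_eq_zero, zero_sub]

theorem pow_p_nat (s : ℕ) (i : ℕ) : (s : k) ^ (p * i) = (s : k) ^ i := by
  have h1 : (s : ZMod p) ^ p = s := ZMod.pow_card _
  have h2 := congrArg (ZMod.castHom (dvd_refl p) k) h1
  rw [map_pow, map_natCast] at h2
  rw [pow_mul, h2]

/-- **The arrays of coefficients**, in the degree `n`: `a i` is the coefficient of
`x ^ i y ^ (n - i)`. -/
theorem laz_arr (n : ℕ) : ∀ (a : ℕ → k), (∀ i, i ≤ n → a (n - i) = a i) → a 0 = 0 →
    (∀ i l m, 1 ≤ i → 1 ≤ l → m + i + l = n → (((m + i).choose i : ℕ) : k) * a (m + i) =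
      (((m + l).choose l : ℕ) : k) * a i) →
    (∑ i ∈ range (n + 1), a i * ∑ s ∈ range p, (s : k) ^ i = 0) →
    ∃ c : k, ∀ i, 0 < i → i < n → a i = c * ((n.choose i : ℕ) : k) := by
  have hp1 := hp.out.one_lt
  induction n using Nat.strong_induction_on with
  | _ n ih =>
  intro a hsym h0 hR hT
  -- `(n - i) a_i = C(n - 1, i) a_(n - 1)`
  have h1 : ∀ i, 1 ≤ i → i < n → ((n - i : ℕ) : k) * a i =
      (((n - 1).choose i : ℕ) : k) * a (n - 1) := by
    intro i hi hin
    have h2 := hR i 1 (n - 1 - i) hi le_rfl (by omega)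
    rw [show n - 1 - i + i = n - 1 by omega, show n - 1 - i + 1 = n - i by omega,
      Nat.choose_one_right] at h2
    exact h2.symm
  by_cases hpn : p ∣ n
  · obtain ⟨m, rfl⟩ := hpn
    rcases Nat.lt_or_ge m 2 with hm | hm
    · rcases (by omega : m = 0 ∨ m = 1) with rfl | rfl
      · exact ⟨0, fun i hi hin => absurd hin (by omega)⟩
      · -- degree `p`
        rw [Nat.mul_one] at h1 hT hsym ⊢
        have h2 : a (p - 1) = 0 := by
          rw [Finset.sum_eq_single (p - 1)] at hT
          · rw [sum_pow_last, mul_neg, mul_one, neg_eq_zero] at hT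
            exact hT
          · intro i hi hne
            rw [mem_range] at hi
            rcases Nat.eq_or_lt_of_le (Nat.lt_succ_iff.1 hi) with h4 | h4
            · have h5 := hsym 0 (Nat.zero_le _)
              rw [Nat.sub_zero] at h5
              rw [h4, h5, h0, zero_mul]
            · rw [sum_pow_lt (by omega), mul_zero]
          · intro h4
            exact absurd (mem_range.2 (by omega)) h4
        refine ⟨0, fun i hi hin => ?_⟩
        have h3 := h1 i hi hin
        rw [h2, mul_zero] at h3
        rw [zero_mul]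
        rcases mul_eq_zero.1 h3 with h4 | h4
        · rw [CharP.cast_eq_zero_iff k p] at h4
          exact absurd (Nat.le_of_dvd (by omega) h4) (by omega)
        · exact h4
    · -- degree `p m`, `m ≥ 2`
      have hpm : p * 2 ≤ p * m := Nat.mul_le_mul_left p hm
      have h2 : a (p * m - 1) = 0 := by
        have h3 := hR (p * m - p) 1 (p - 1) (by omega) le_rfl (by omega)
        rw [show p - 1 + (p * m - p) = p * m - 1 by omega, show p - 1 + 1 = p by omega,
          Nat.choose_one_right, CharP.cast_eq_zero k p, zero_mul] at h3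
        have h4 : (p * m - 1).choose (p * m - p) = (p * m - 1).choose (p - 1) := by
          rw [← Nat.choose_symm (by omega : p - 1 ≤ p * m - 1)]
          congr 1
          omega
        rw [h4, choose_last (k := k) m (by omega), one_mul] at h3
        exact h3
      have h3 : ∀ i, 0 < i → i < p * m → ¬ p ∣ i → a i = 0 := by
        intro i hi hin hpi
        have h4 := h1 i hi hin
        rw [h2, mul_zero] at h4
        rcases mul_eq_zero.1 h4 with h5 | h5
        · rw [CharP.cast_eq_zero_iff k p] at h5
          exact absurd ((Nat.dvd_sub_iff_right hin.le (dvd_mul_right p m)).1 h5) hpi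
        · exact h5
      obtain ⟨c, hc⟩ := ih m (by nlinarith) (fun i => a (p * i))
        (fun i hi => by
          show a (p * (m - i)) = a (p * i)
          rw [Nat.mul_sub]
          exact hsym _ (Nat.mul_le_mul_left p hi)) (by rw [Nat.mul_zero]; exact h0)
        (fun i l q hi hl hq => by
          have h4 := hR (p * i) (p * l) (p * q) (by nlinarith) (by nlinarith) (by
            rw [← hq]
            ring)
          rw [← Nat.mul_add, ← Nat.mul_add, choose_mul, choose_mul] at h4
          exact h4) (by
          rw [← hT]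
          have e1 : ∀ i ∈ range (p * m + 1), i ∉ (range (m + 1)).image (fun j => p * j) →
              a i * ∑ s ∈ range p, (s : k) ^ i = 0 := by
            intro i hi hni
            rw [mem_range] at hi
            by_cases hpi : p ∣ i
            · obtain ⟨j, rfl⟩ := hpi
              exact absurd (mem_image.2 ⟨j, mem_range.2 (Nat.lt_succ_of_le
                (Nat.le_of_mul_le_mul_left (Nat.lt_succ_iff.1 hi) hp.out.pos)), rfl⟩) hni
            · rw [h3 i (Nat.pos_of_ne_zero fun h => hpi (h ▸ dvd_zero p)) ?_ hpi, zero_mul]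
              rcases Nat.eq_or_lt_of_le (Nat.lt_succ_iff.1 hi) with h4 | h4
              · exact absurd (h4 ▸ dvd_mul_right p m) hpi
              · exact h4
          have e2 : (range (m + 1)).image (fun j => p * j) ⊆ range (p * m + 1) := by
            intro i hi
            obtain ⟨j, hj, rfl⟩ := mem_image.1 hi
            rw [mem_range] at hj ⊢
            exact Nat.lt_succ_of_le (Nat.mul_le_mul_left p (Nat.lt_succ_iff.1 hj))
          rw [← Finset.sum_subset e2 e1, Finset.sum_image fun i _ j _ h =>
            Nat.eq_of_mul_eq_mul_left hp.out.pos h]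
          refine Finset.sum_congr rfl fun i _ => ?_
          congr 1
          exact Finset.sum_congr rfl fun s _ => (pow_p_nat s i).symm)
      refine ⟨c, fun i hi hin => ?_⟩
      by_cases hpi : p ∣ i
      · obtain ⟨j, rfl⟩ := hpi
        rw [choose_mul]
        exact hc j (Nat.pos_of_mul_pos_left hi) (Nat.lt_of_mul_lt_mul_left hin)
      · rw [h3 i hi hin hpi, choose_zero m i hpi, mul_zero]
  · -- degree prime to `p`
    have hn0 : (n : k) ≠ 0 := fun h => hpn ((CharP.cast_eq_zero_iff k p n).1 h)
    refine ⟨a (n - 1) / n, fun i hi hin => ?_⟩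
    have h2 := h1 i hi hin
    have h3 := h1 (n - i) (by omega) (by omega)
    rw [show n - (n - i) = i by omega, hsym i hin.le] at h3
    have h4 : (n - 1).choose (n - i) + (n - 1).choose i = n.choose i := by
      have h5 : (n - 1).choose (n - i) = (n - 1).choose (i - 1) := by
        rw [← Nat.choose_symm (by omega : i - 1 ≤ n - 1)]
        congr 1
        omega
      rw [h5]
      obtain ⟨i', rfl⟩ : ∃ i', i = i' + 1 := ⟨i - 1, by omega⟩
      obtain ⟨n', rfl⟩ : ∃ n', n = n' + 1 := ⟨n - 1, by omega⟩
      simp only [Nat.add_sub_cancel]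
      exact (Nat.choose_succ_succ n' i').symm
    have h5 : ((n - i : ℕ) : k) + (i : k) = n := by
      rw [← Nat.cast_add]
      congr 1
      omega
    rw [div_mul_eq_mul_div, eq_div_iff hn0, ← h4, ← h5, Nat.cast_add]
    linear_combination h2 + h3

/-! ### One variable -/

omit hp [CharP k p] in
/-- The relation of the coefficients of a cocycle. -/
theorem hasse_rel [Infinite k] {D : ℕ} {P : ℕ → k[X]}
    (hc : ∀ x y z : k, ∑ j ∈ range D, (P j).eval x * y ^ j +
      ∑ j ∈ range D, (P j).eval (x + y) * z ^ j = ∑ j ∈ range D, (P j).eval y * z ^ j +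
      ∑ j ∈ range D, (P j).eval x * (y + z) ^ j) {i l : ℕ} (hi : 1 ≤ i) (hl : 1 ≤ l)
    (hlD : l < D) (m : ℕ) :
    (((m + i).choose i : ℕ) : k) * (P l).coeff (m + i) =
      (((m + l).choose l : ℕ) : k) * if m + l < D then (P (m + l)).coeff i else 0 := by
  -- the coefficients of `z ^ l`
  have h1 : ∀ x y : k, (P l).eval (x + y) = (P l).eval y +
      ∑ j ∈ range D, (P j).eval x * (y ^ (j - l) * ((j.choose l : ℕ) : k)) := by
    intro x y
    have h2 : (C (∑ j ∈ range D, (P j).eval x * y ^ j) +
        ∑ j ∈ range D, C ((P j).eval (x + y)) * X ^ j : k[X]) =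
        ∑ j ∈ range D, C ((P j).eval y) * X ^ j +
        ∑ j ∈ range D, C ((P j).eval x) * (X + C y) ^ j := by
      refine Polynomial.funext fun z => ?_
      have h3 := hc x y z
      simp only [eval_add, eval_C, eval_finsetSum, eval_mul, eval_pow, eval_X]
      rw [h3]
      congr 1
      exact Finset.sum_congr rfl fun j _ => by rw [add_comm y z]
    have h3 := congrArg (fun q : k[X] => q.coeff l) h2
    simp only [coeff_add, finsetSum_coeff, coeff_C_mul, coeff_X_pow, coeff_X_add_C_pow] at h3
    rw [coeff_C, if_neg (by omega : l ≠ 0), zero_add] at h3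
    simpa only [mul_ite, mul_one, mul_zero, Finset.sum_ite_eq, mem_range, hlD, if_true] using h3
  -- the coefficients of `x ^ i`
  have h2 : ∀ y : k, (hasseDeriv i (P l)).eval y =
      ∑ j ∈ range D, (P j).coeff i * (y ^ (j - l) * ((j.choose l : ℕ) : k)) := by
    intro y
    have h3 : taylor y (P l) = C ((P l).eval y) +
        ∑ j ∈ range D, P j * C (y ^ (j - l) * ((j.choose l : ℕ) : k)) := by
      refine Polynomial.funext fun x => ?_
      rw [taylor_eval, eval_add, eval_C, eval_finsetSum, h1 x y]
      congr 1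
      exact Finset.sum_congr rfl fun j _ => by rw [eval_mul, eval_C]
    have h4 := congrArg (fun q : k[X] => q.coeff i) h3
    simp only [taylor_coeff, coeff_add, finsetSum_coeff, coeff_mul_C] at h4
    rw [coeff_C, if_neg (by omega : i ≠ 0), zero_add] at h4
    exact h4
  have h3 : hasseDeriv i (P l) = ∑ j ∈ range D, C ((P j).coeff i * ((j.choose l : ℕ) : k)) *
      X ^ (j - l) := by
    refine Polynomial.funext fun y => ?_
    rw [h2 y, eval_finsetSum]
    exact Finset.sum_congr rfl fun j _ => by
      rw [eval_mul, eval_C, eval_pow, eval_X]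
      ring
  have h4 := congrArg (fun q : k[X] => q.coeff m) h3
  simp only [hasseDeriv_coeff, finsetSum_coeff, coeff_C_mul, coeff_X_pow] at h4
  rw [h4]
  split_ifs with h5
  · rw [Finset.sum_eq_single (m + l)]
    · rw [if_pos (by omega)]
      ring
    · intro j _ hne
      by_cases hj : l ≤ j
      · rw [if_neg (by omega), mul_zero]
      · rw [Nat.choose_eq_zero_of_lt (by omega), Nat.cast_zero, mul_zero, zero_mul]
    · exact fun h => absurd (mem_range.2 h5) h
  · rw [mul_zero]
    refine Finset.sum_eq_zero fun j hj => ?_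
    rw [mem_range] at hj
    by_cases hlj : l ≤ j
    · rw [if_neg (by omega), mul_zero]
    · rw [Nat.choose_eq_zero_of_lt (by omega), Nat.cast_zero, mul_zero, zero_mul]

/-- **One variable.** -/
theorem laz_one [Infinite k] {D : ℕ} {P : ℕ → k[X]} (hP : ∀ j, (P j).natDegree < D)
    {f : k → k → k} (hf : ∀ x y, f x y = ∑ j ∈ range D, (P j).eval x * y ^ j)
    (hsym : ∀ x y, f x y = f y x) (h0 : ∀ y, f 0 y = 0)
    (hc : ∀ x y z, f x y + f (x + y) z = f y z + f x (y + z))
    (ht : ∀ x, ∑ s ∈ range p, f ((s : k) * x) x = 0) :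
    ∃ g : k[X], ∀ x y, f x y = g.eval (x + y) - g.eval x - g.eval y := by
  classical
  have hp1 := hp.out.one_lt
  set A : ℕ → ℕ → k := fun i j => if j < D then (P j).coeff i else 0 with hA
  have hA0 : ∀ i j, D ≤ i ∨ D ≤ j → A i j = 0 := by
    intro i j h
    simp only [hA]
    split_ifs with h1
    · rcases h with h | h
      · exact coeff_eq_zero_of_natDegree_lt (lt_of_lt_of_le (hP j) h)
      · omega
    · rfl
  -- symmetry
  have hAs : ∀ i j, A i j = A j i := by
    intro i j
    by_cases hi : i < D
    · by_cases hj : j < D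
      · simp only [hA, if_pos hi, if_pos hj]
        have h1 : ∀ x : k, (P j).eval x = ∑ j' ∈ range D, (P j').coeff j * x ^ j' := by
          intro x
          have h2 : (∑ j' ∈ range D, C ((P j').eval x) * X ^ j' : k[X]) =
              ∑ j' ∈ range D, P j' * C (x ^ j') := by
            refine Polynomial.funext fun y => ?_
            rw [eval_finsetSum, eval_finsetSum]
            have h3 := hsym x y
            rw [hf, hf] at h3
            rw [Finset.sum_congr rfl fun j' _ => (by rw [eval_mul, eval_C, eval_pow, eval_X] :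
              eval y (C ((P j').eval x) * X ^ j') = (P j').eval x * y ^ j'), h3]
            exact Finset.sum_congr rfl fun j' _ => by rw [eval_mul, eval_C]
          have h3 := congrArg (fun q : k[X] => q.coeff j) h2
          simp only [finsetSum_coeff, coeff_C_mul, coeff_X_pow, coeff_mul_C] at h3
          simpa only [mul_ite, mul_one, mul_zero, Finset.sum_ite_eq, mem_range, hj, if_true]
            using h3
        have h2 : P j = ∑ j' ∈ range D, C ((P j').coeff j) * X ^ j' := by
          refine Polynomial.funext fun x => ?_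
          rw [h1 x, eval_finsetSum]
          exact Finset.sum_congr rfl fun j' _ => by rw [eval_mul, eval_C, eval_pow, eval_X]
        have h3 := congrArg (fun q : k[X] => q.coeff i) h2
        simp only [finsetSum_coeff, coeff_C_mul, coeff_X_pow] at h3
        simpa only [mul_ite, mul_one, mul_zero, Finset.sum_ite_eq, mem_range, hi, if_true]
          using h3
      · rw [hA0 i j (Or.inr (not_lt.1 hj)), hA0 j i (Or.inl (not_lt.1 hj))]
    · rw [hA0 i j (Or.inl (not_lt.1 hi)), hA0 j i (Or.inr (not_lt.1 hi))]
  have hA00 : ∀ j, A 0 j = 0 := by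
    intro j
    by_cases hj : j < D
    · simp only [hA, if_pos hj]
      have h1 : (∑ j' ∈ range D, C ((P j').eval 0) * X ^ j' : k[X]) = 0 := by
        refine Polynomial.funext fun y => ?_
        have h2 := h0 y
        rw [hf] at h2
        rw [eval_finsetSum, eval_zero]
        exact (Finset.sum_congr rfl fun j' _ => by
          rw [eval_mul, eval_C, eval_pow, eval_X]).trans h2
      have h3 := congrArg (fun q : k[X] => q.coeff j) h1
      simp only [finsetSum_coeff, coeff_C_mul, coeff_X_pow, coeff_zero] at h3
      rw [coeff_zero_eq_eval_zero]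
      simpa only [mul_ite, mul_one, mul_zero, Finset.sum_ite_eq, mem_range, hj, if_true] using h3
    · exact hA0 _ _ (Or.inr (not_lt.1 hj))
  -- the relation
  have hR : ∀ i l m, 1 ≤ i → 1 ≤ l → (((m + i).choose i : ℕ) : k) * A (m + i) l =
      (((m + l).choose l : ℕ) : k) * A i (m + l) := by
    intro i l m hi hl
    by_cases hlD : l < D
    · have h1 := hasse_rel (P := P) (D := D) (fun x y z => by
        have := hc x y z
        rwa [hf, hf, hf, hf] at this) hi hl hlD m
      simp only [hA, if_pos hlD]
      exact h1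
    · rw [hA0 _ l (Or.inr (not_lt.1 hlD)), hA0 _ (m + l) (Or.inr (by omega)), mul_zero, mul_zero]
  -- exponent `p`
  have hT : ∀ n, ∑ i ∈ range (n + 1), A i (n - i) * ∑ s ∈ range p, (s : k) ^ i = 0 := by
    intro n
    have h1 : (∑ s ∈ range p, ∑ j ∈ range D, (P j).comp (C (s : k) * X) * X ^ j : k[X]) = 0 := by
      refine Polynomial.funext fun x => ?_
      rw [eval_zero, ← ht x, eval_finsetSum]
      refine Finset.sum_congr rfl fun s _ => ?_
      rw [hf, eval_finsetSum]
      exact Finset.sum_congr rfl fun j _ => by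
        rw [eval_mul, eval_comp, eval_mul, eval_C, eval_X, eval_pow, eval_X]
    have h2 := congrArg (fun q : k[X] => q.coeff n) h1
    simp only [finsetSum_coeff, coeff_mul_X_pow', comp_C_mul_X_coeff, coeff_zero] at h2
    rw [Finset.sum_comm] at h2
    rw [← h2, ← Finset.sum_range_reflect]
    simp only [Nat.add_sub_cancel]
    have e1 : ∀ j ∈ range (n + 1), A (n - j) (n - (n - j)) * ∑ s ∈ range p, (s : k) ^ (n - j) =
        if j < D then (P j).coeff (n - j) * ∑ s ∈ range p, (s : k) ^ (n - j) else 0 := by
      intro j hj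
      rw [mem_range] at hj
      rw [show n - (n - j) = j by omega]
      simp only [hA]
      split_ifs
      · rfl
      · rw [zero_mul]
    have e2 : ∀ j ∈ range D, (∑ s ∈ range p, if j ≤ n then
        (P j).coeff (n - j) * (s : k) ^ (n - j) else 0) =
        if j ≤ n then (P j).coeff (n - j) * ∑ s ∈ range p, (s : k) ^ (n - j) else 0 := by
      intro j _
      split_ifs
      · rw [Finset.mul_sum]
      · rw [Finset.sum_const_zero]
    rw [Finset.sum_congr rfl e2, Finset.sum_congr rfl e1, ← Finset.sum_filter,
      ← Finset.sum_filter]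
    refine Finset.sum_congr ?_ fun _ _ => rfl
    ext j
    simp only [mem_filter, mem_range]
    omega
  choose c hcn using fun n => laz_arr (p := p) n (fun i => A i (n - i))
    (fun i hi => by
      show A (n - i) (n - (n - i)) = A i (n - i)
      rw [show n - (n - i) = i by omega, hAs]) (hA00 _)
    (fun i l m hi hl hn => by
      show _ * A (m + i) (n - (m + i)) = _ * A i (n - i)
      rw [show n - (m + i) = l by omega, show n - i = m + l by omega]
      exact hR i l m hi hl) (hT n)
  have hcA : ∀ i j, 1 ≤ i → 1 ≤ j → A i j = c (i + j) * (((i + j).choose i : ℕ) : k) := by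
    intro i j hi hj
    have h1 := hcn (i + j) i (by omega) (by omega)
    rwa [Nat.add_sub_cancel_left] at h1
  obtain ⟨g, hg⟩ : ∃ g : k[X], g = ∑ n ∈ Finset.Ico 1 (2 * D), C (c n) * X ^ n := ⟨_, rfl⟩
  have hgc : ∀ n, g.coeff n = if 1 ≤ n ∧ n < 2 * D then c n else 0 := by
    intro n
    rw [hg, finsetSum_coeff]
    simp only [coeff_C_mul, coeff_X_pow, mul_ite, mul_one, mul_zero, Finset.sum_ite_eq,
      Finset.mem_Ico]
  refine ⟨g, fun x y => ?_⟩
  have h1 : ∀ i, 1 ≤ i → ∀ y : k, (hasseDeriv i g).eval y - g.coeff i =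
      ∑ j ∈ range D, A i j * y ^ j := by
    intro i hi y
    have h2 : hasseDeriv i g - C (g.coeff i) = ∑ j ∈ range D, C (A i j) * X ^ j := by
      ext m
      rw [coeff_sub, hasseDeriv_coeff, finsetSum_coeff]
      simp only [coeff_C_mul, coeff_X_pow, mul_ite, mul_one, mul_zero, Finset.sum_ite_eq,
        mem_range]
      rcases Nat.eq_zero_or_pos m with rfl | hm
      · rw [coeff_C_zero, zero_add, Nat.choose_self, Nat.cast_one, one_mul, sub_self]
        split_ifs
        · rw [hAs, hA00]
        · rfl
      · rw [coeff_C, if_neg (by omega), sub_zero, hgc]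
        have h3 : (if m < D then A i m else 0) = A i m := by
          split_ifs with h4
          · rfl
          · exact (hA0 _ _ (Or.inr (not_lt.1 h4))).symm
        rw [h3]
        split_ifs with h4
        · rw [hcA i m hi hm, add_comm m i]
          ring
        · rw [mul_zero]
          exact (hA0 i m (by omega)).symm
    have h3 := congrArg (fun q : k[X] => q.eval y) h2
    simp only [eval_sub, eval_C, eval_finsetSum, eval_mul, eval_pow, eval_X] at h3
    exact h3
  have h2 : (∑ j ∈ range D, P j * C (y ^ j) : k[X]) = taylor y g - g - C (g.eval y) := by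
    ext i
    rw [coeff_sub, coeff_sub, taylor_coeff, finsetSum_coeff]
    simp only [coeff_mul_C]
    have e1 : ∑ j ∈ range D, (P j).coeff i * y ^ j = ∑ j ∈ range D, A i j * y ^ j :=
      Finset.sum_congr rfl fun j hj => by
        simp only [hA]
        rw [if_pos (mem_range.1 hj)]
    rw [e1]
    rcases Nat.eq_zero_or_pos i with rfl | hi
    · rw [hasseDeriv_zero, LinearMap.id_apply, coeff_C_zero, hgc, if_neg (by omega), sub_zero,
        sub_self]
      exact Finset.sum_eq_zero fun j _ => by rw [hA00, zero_mul]
    · rw [coeff_C, if_neg (by omega), sub_zero, h1 i hi y]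
  have h3 := congrArg (fun q : k[X] => q.eval x) h2
  simp only [eval_finsetSum, eval_mul, eval_C, eval_sub, taylor_eval] at h3
  rw [hf, h3]

/-! ### Several variables -/

/-- Polynomial functions. -/
def PolF {ι : Type*} (φ : (ι → k) → k) : Prop :=
  ∃ P : MvPolynomial ι k, ∀ x, MvPolynomial.eval x P = φ x

/-- Polynomial functions of two vectors. -/
def PolF2 {ι : Type*} (f : (ι → k) → (ι → k) → k) : Prop :=
  ∃ P : MvPolynomial (ι ⊕ ι) k, ∀ x y, MvPolynomial.eval (Sum.elim x y) P = f x y

omit hp [CharP k p] in
/-- Substitution. -/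
theorem hom_aeval {ι R : Type*} [CommRing R] [Algebra k R] (ψ : R →+* k)
    (hψ : ∀ c : k, ψ (algebraMap k R c) = c) (σ : ι → R) (P : MvPolynomial ι k) :
    ψ (MvPolynomial.aeval σ P) = MvPolynomial.eval (fun i => ψ (σ i)) P := by
  have h1 : ψ.comp (MvPolynomial.aeval σ : MvPolynomial ι k →ₐ[k] R).toRingHom =
      MvPolynomial.eval (fun i => ψ (σ i)) := by
    refine MvPolynomial.ringHom_ext (fun c => ?_) fun i => ?_
    · rw [RingHom.comp_apply, MvPolynomial.eval_C]
      change ψ (MvPolynomial.aeval σ (MvPolynomial.C c)) = c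
      rw [MvPolynomial.aeval_C, hψ]
    · rw [RingHom.comp_apply, MvPolynomial.eval_X]
      change ψ (MvPolynomial.aeval σ (MvPolynomial.X i)) = ψ (σ i)
      rw [MvPolynomial.aeval_X]
  exact congrArg (fun φ : MvPolynomial ι k →+* k => φ P) h1

namespace PolF

variable {ι κ : Type*} {φ φ' : (ι → k) → k}

omit hp [CharP k p] in
theorem add (h : PolF φ) (h' : PolF φ') : PolF fun x => φ x + φ' x := by
  obtain ⟨P, hP⟩ := h
  obtain ⟨P', hP'⟩ := h'
  exact ⟨P + P', fun x => by rw [map_add, hP, hP']⟩

omit hp [CharP k p] in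
/-- Composition with a polynomial map. -/
theorem comp (h : PolF φ) {u : (κ → k) → ι → k} (hu : ∀ i, PolF fun x => u x i) :
    PolF fun x => φ (u x) := by
  obtain ⟨P, hP⟩ := h
  choose Q hQ using hu
  refine ⟨MvPolynomial.aeval Q P, fun x => ?_⟩
  rw [hom_aeval (MvPolynomial.eval x) (fun c => MvPolynomial.eval_C c) Q P]
  have h1 : (fun i => MvPolynomial.eval x (Q i)) = u x := funext fun i => hQ i x
  rw [h1]
  exact hP _

omit hp [CharP k p] in
theorem proj (i : ι) : PolF fun x : ι → k => x i := ⟨MvPolynomial.X i, fun _ =>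
  MvPolynomial.eval_X i⟩

omit hp [CharP k p] in
theorem const (c : k) : PolF fun _ : ι → k => c := ⟨MvPolynomial.C c, fun _ =>
  MvPolynomial.eval_C c⟩

omit hp [CharP k p] in
theorem of_poly (g : k[X]) (i : ι) : PolF fun x : ι → k => g.eval (x i) := by
  refine ⟨aeval (MvPolynomial.X i) g, fun x => ?_⟩
  have h1 : (MvPolynomial.eval x) (aeval (MvPolynomial.X i : MvPolynomial ι k) g) =
      g.eval₂ ((MvPolynomial.eval x).comp (algebraMap k (MvPolynomial ι k)))
        (MvPolynomial.eval x (MvPolynomial.X i)) := by
    rw [aeval_def, hom_eval₂]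
  rw [h1, MvPolynomial.eval_X]
  have h2 : (MvPolynomial.eval x).comp (algebraMap k (MvPolynomial ι k)) = RingHom.id k := by
    ext c
    exact MvPolynomial.eval_C c
  rw [h2]
  rfl

end PolF

omit hp [CharP k p] in
/-- Substitution in a function of two vectors. -/
theorem PolF2.comp {ι κ : Type*} {f : (ι → k) → (ι → k) → k} (h : PolF2 f)
    {u u' : (κ → k) → ι → k} (hu : ∀ i, PolF fun x => u x i) (hu' : ∀ i, PolF fun x => u' x i) :
    PolF fun x => f (u x) (u' x) := by
  obtain ⟨P, hP⟩ := h
  have h1 := PolF.comp (φ := fun z => MvPolynomial.eval z P) ⟨P, fun _ => rfl⟩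
    (u := fun x => Sum.elim (u x) (u' x)) (fun i => by
      rcases i with i | i
      · exact hu i
      · exact hu' i)
  obtain ⟨Q, hQ⟩ := h1
  exact ⟨Q, fun x => (hQ x).trans (hP _ _)⟩

omit hp [CharP k p] in
theorem PolF2.comp2 {ι κ : Type*} {f : (ι → k) → (ι → k) → k} (h : PolF2 f)
    {u : (κ → k) → ι → k} (hu : ∀ i, PolF fun x => u x i) :
    PolF2 fun x y => f (u x) (u y) := by
  have h1 := h.comp (κ := κ ⊕ κ) (u := fun z => u (z ∘ Sum.inl)) (u' := fun z => u (z ∘ Sum.inr))
    (fun i => (hu i).comp fun j => PolF.proj (Sum.inl j))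
    (fun i => (hu i).comp fun j => PolF.proj (Sum.inr j))
  obtain ⟨Q, hQ⟩ := h1
  exact ⟨Q, fun x y => (hQ _).trans (by
    change f (u (Sum.elim x y ∘ Sum.inl)) (u (Sum.elim x y ∘ Sum.inr)) = f (u x) (u y)
    rw [Sum.elim_comp_inl, Sum.elim_comp_inr])⟩

omit hp [CharP k p] in
/-- A bivariate polynomial function as a sum. -/
theorem exists_sum {b : ℕ} {f : (Fin (b + 1) → k) → (Fin (b + 1) → k) → k} (h : PolF2 f) :
    ∃ (D : ℕ) (P : ℕ → k[X]), (∀ j, (P j).natDegree < D) ∧ ∀ s t : k,
      f (Fin.cons s fun _ => 0) (Fin.cons t fun _ => 0) = ∑ j ∈ range D, (P j).eval s * t ^ j := by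
  obtain ⟨Q, hQ⟩ := h
  set σ : Fin (b + 1) ⊕ Fin (b + 1) → Polynomial (Polynomial k) :=
    Sum.elim (Fin.cons (C X) fun _ => 0) (Fin.cons X fun _ => 0) with hσ
  set F : Polynomial (Polynomial k) := MvPolynomial.aeval σ Q with hF
  refine ⟨F.natDegree + 1 + ∑ j ∈ range (F.natDegree + 1), (F.coeff j).natDegree, F.coeff,
    fun j => ?_, fun s t => ?_⟩
  · by_cases hj : j ∈ range (F.natDegree + 1)
    · have := Finset.single_le_sum (f := fun j => (F.coeff j).natDegree) (fun _ _ => Nat.zero_le _)
        hj
      omega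
    · rw [mem_range, not_lt] at hj
      rw [coeff_eq_zero_of_natDegree_lt (by omega), natDegree_zero]
      omega
  · rw [← hQ]
    have h1 := hom_aeval ((evalRingHom s).comp (evalRingHom (C t))) (fun c => by
      rw [RingHom.comp_apply]
      change eval s (eval (C t) (C (C c))) = c
      rw [eval_C, eval_C]) σ Q
    have h2 : (fun i => ((evalRingHom s).comp (evalRingHom (C t))) (σ i)) =
        Sum.elim (Fin.cons s fun _ => 0) (Fin.cons t fun _ => 0) := by
      funext i
      rcases i with i | i
      · refine Fin.cases ?_ (fun i => ?_) i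
        · change eval s (eval (C t) (C X)) = s
          rw [eval_C, eval_X]
        · change eval s (eval (C t) 0) = 0
          rw [eval_zero, eval_zero]
      · refine Fin.cases ?_ (fun i => ?_) i
        · change eval s (eval (C t) X) = t
          rw [eval_X, eval_C]
        · change eval s (eval (C t) 0) = 0
          rw [eval_zero, eval_zero]
    rw [h2] at h1
    rw [← h1]
    change eval s (eval (C t) F) = _
    rw [eval_eq_sum_range' (p := F) (n := F.natDegree + 1 +
      ∑ j ∈ range (F.natDegree + 1), (F.coeff j).natDegree) (by omega), eval_finsetSum]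
    refine Finset.sum_congr rfl fun j _ => ?_
    rw [eval_mul, eval_pow, eval_C]

/-- **Symmetric polynomial cocycles of exponent `p` are coboundaries.** -/
theorem laz [Infinite k] (b : ℕ) : ∀ (f : (Fin b → k) → (Fin b → k) → k), PolF2 f →
    (∀ x y, f x y = f y x) → (∀ y, f 0 y = 0) →
    (∀ x y z, f x y + f (x + y) z = f y z + f x (y + z)) →
    (∀ x : Fin b → k, ∑ s ∈ range p, f ((s : k) • x) x = 0) →
    ∃ g : (Fin b → k) → k, PolF g ∧ ∀ x y, f x y = g (x + y) - g x - g y := by
  induction b with
  | zero =>
    intro f _ _ h0 _ _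
    refine ⟨fun _ => 0, PolF.const 0, fun x y => ?_⟩
    rw [show x = 0 from Subsingleton.elim _ _, h0, sub_zero, sub_zero]
  | succ b ih =>
    intro f hf hsym h0 hc ht
    set a : (Fin (b + 1) → k) → Fin (b + 1) → k := fun x => Fin.cons (x 0) fun _ => 0 with ha
    set t : (Fin (b + 1) → k) → Fin (b + 1) → k := fun x => Fin.cons 0 fun i => x i.succ with hta
    have hat : ∀ x, a x + t x = x := by
      intro x
      funext i
      refine Fin.cases ?_ (fun i => ?_) i
      · simp [ha, hta]
      · simp [ha, hta]
    have haa : ∀ x y, a (x + y) = a x + a y := by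
      intro x y
      funext i
      refine Fin.cases ?_ (fun i => ?_) i
      · simp [ha]
      · simp [ha]
    have htt : ∀ x y, t (x + y) = t x + t y := by
      intro x y
      funext i
      refine Fin.cases ?_ (fun i => ?_) i
      · simp [hta]
      · simp [hta]
    set h : (Fin (b + 1) → k) → k := fun x => f (a x) (t x) with hh
    -- the splitting
    have key : ∀ x y, f x y = f (a x) (a y) + f (t x) (t y) + (h (x + y) - h x - h y) := by
      intro x y
      have e1 := hc (a x) (t x) (a y + t y)
      have e2 := hc (t x) (a y) (t y)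
      have e3 := hsym (t x) (a y)
      have e4 := hc (a y) (t x) (t y)
      have e5 := hc (a x) (a y) (t x + t y)
      rw [hat x, hat y] at e1
      rw [hat y] at e2
      have e6 : t x + a y = a y + t x := add_comm _ _
      have e7 : t x + y = a y + (t x + t y) := by
        conv_lhs => rw [← hat y]
        abel
      rw [e6] at e2
      rw [e7] at e1
      simp only [hh]
      rw [haa, htt]
      linear_combination e1 - e2 + e3 + e4 - e5
    -- the first variable
    obtain ⟨D, P, hP, hPf⟩ := exists_sum hf
    obtain ⟨gA, hgA⟩ := laz_one (p := p) (D := D) (P := P) hP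
      (f := fun s t => f (Fin.cons s fun _ => 0) (Fin.cons t fun _ => 0)) hPf
      (fun s t => hsym _ _) (fun t => by
        have e1 : (Fin.cons 0 fun _ => 0 : Fin (b + 1) → k) = 0 := by
          funext i
          refine Fin.cases rfl (fun i => rfl) i
        rw [e1]
        exact h0 _) (fun r s t => by
        have e1 : ∀ r s : k, (Fin.cons (r + s) fun _ => 0 : Fin (b + 1) → k) =
            (Fin.cons r fun _ => 0 : Fin (b + 1) → k) + (Fin.cons s fun _ => 0) := by
          intro r s
          funext i
          refine Fin.cases ?_ (fun i => ?_) i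
          · simp
          · simp
        rw [e1, e1]
        exact hc _ _ _) (fun x => by
        refine Eq.trans (Finset.sum_congr rfl fun s _ => ?_) (ht (Fin.cons x fun _ => 0))
        refine congrArg (fun u => f u (Fin.cons x fun _ => 0)) ?_
        funext i
        refine Fin.cases ?_ (fun i => ?_) i
        · simp
        · simp)
    -- the other variables
    obtain ⟨gB, hgB, hgB'⟩ := ih (fun x y => f (Fin.cons 0 x) (Fin.cons 0 y))
      (hf.comp2 (u := fun x => Fin.cons 0 x) fun i => by
        refine Fin.cases ?_ (fun i => ?_) i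
        · exact PolF.const 0
        · exact PolF.proj i) (fun x y => hsym _ _) (fun y => by
        have e1 : (Fin.cons 0 (0 : Fin b → k) : Fin (b + 1) → k) = 0 := by
          funext i
          refine Fin.cases rfl (fun i => rfl) i
        rw [e1]
        exact h0 _) (fun x y z => by
        have e1 : ∀ x y : Fin b → k, (Fin.cons 0 (x + y) : Fin (b + 1) → k) =
            Fin.cons 0 x + Fin.cons 0 y := by
          intro x y
          funext i
          refine Fin.cases ?_ (fun i => ?_) i
          · simp
          · simp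
        rw [e1, e1]
        exact hc _ _ _) (fun x => by
        refine Eq.trans (Finset.sum_congr rfl fun s _ => ?_) (ht (Fin.cons 0 x))
        refine congrArg (fun u => f u (Fin.cons 0 x)) ?_
        funext i
        refine Fin.cases ?_ (fun i => ?_) i
        · simp
        · simp)
    refine ⟨fun x => gA.eval (x 0) + gB (fun i => x i.succ) + h x, ?_, fun x y => ?_⟩
    · refine ((PolF.of_poly gA 0).add (hgB.comp fun i => PolF.proj i.succ)).add
        (hf.comp (fun i => ?_) fun i => ?_)
      · refine Fin.cases ?_ (fun i => ?_) i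
        · exact PolF.proj 0
        · exact PolF.const 0
      · refine Fin.cases ?_ (fun i => ?_) i
        · exact PolF.const 0
        · exact PolF.proj i.succ
    · rw [key x y]
      have e1 : f (a x) (a y) = gA.eval (x 0 + y 0) - gA.eval (x 0) - gA.eval (y 0) :=
        hgA (x 0) (y 0)
      have e2 : f (t x) (t y) = gB ((fun i => x i.succ) + fun i => y i.succ) -
          gB (fun i => x i.succ) - gB (fun i => y i.succ) := hgB' _ _
      rw [e1, e2]
      change _ = gA.eval (x 0 + y 0) + gB ((fun i => x i.succ) + fun i => y i.succ) + h (x + y) -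
        _ - _
      ring

end Pool.Agent.TWGS
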