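import Pool.Agent.Lib.TWGS.HomL
import Pool.Agent.Lib.TWGS.Laz

/-!
# Groups without schemes, A4: the subgroup generated by the commutators and the `p`-th powers

`L.frat p`: the subgroup generated by all `⁅x, y⁆` and `x ^ p`.

* `Law.frat_dense`: if the first `b` coordinates are additive and every additive polynomial function
  is zero on `V b`, then a polynomial function which vanishes on `L.frat p` vanishes on `V b`.
-/

set_option autoImplicit false
set_option linter.unusedSectionVars false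

open MvPolynomial
open scoped commutatorElement

namespace Pool.Agent.TWGS

variable {k : Type*} [Field k] {N : ℕ}

section Ext

variable {b : ℕ}

theorem shf_lt {i j : Fin (N - b)} : shf N b i < shf N b j ↔ i < j := by
  simp only [shf, Fin.lt_def]
  omega

/-- Polynomial functions at extended points. -/
theorem RPol.comp_ext0 {R : Type*} [CommRing R] {F : (Fin N → R) → R} (h : RPol F) :
    RPol fun z : Fin (N - b) → R => F (ext0 N b z) := by
  refine h.comp fun a => ?_
  rcases lt_or_ge (a : ℕ) b with h1 | h1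
  · have h2 : (fun z : Fin (N - b) → R => ext0 N b z a) = fun _ => 0 := by
      funext z
      exact ext0_lt z h1
    rw [h2]
    exact RPol.const 0
  · obtain ⟨i, rfl⟩ := exists_shf h1
    simp only [ext0_shf]
    exact RPol.proj i

/-- The coordinates of a point from `b` on. -/
def cut {R : Type*} (b : ℕ) (x : Fin N → R) : Fin (N - b) → R := fun i => x (shf N b i)

theorem ext0_cut {L : Law k N} {R : Type*} [CommRing R] [Algebra k R] {x : L.Pt R}
    (hx : x ∈ L.V R b) : ext0 N b (cut b x.co) = x.co := by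
  funext a
  rcases lt_or_ge (a : ℕ) b with h | h
  · rw [ext0_lt _ h]
    exact (hx a h).symm
  · obtain ⟨i, rfl⟩ := exists_shf h
    rw [ext0_shf]
    rfl

theorem emb_cut {L : Law k N} {R : Type*} [CommRing R] [Algebra k R] {x : L.Pt R}
    (hx : x ∈ L.V R b) : L.emb b R ⟨cut b x.co⟩ = x := Law.Pt.ext (ext0_cut hx)

end Ext

namespace Law

variable (L : Law k N) (p b : ℕ)

/-- The subgroup generated by the commutators and the `p`-th powers. -/
noncomputable def frat : Subgroup (L.Pt k) :=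
  Subgroup.closure ({z | ∃ x y : L.Pt k, ⁅x, y⁆ = z} ∪ {z | ∃ x : L.Pt k, x ^ p = z})

variable {L p b}

theorem comm_mem_frat (x y : L.Pt k) : ⁅x, y⁆ ∈ L.frat p :=
  Subgroup.subset_closure (Or.inl ⟨x, y, rfl⟩)

theorem pow_mem_frat (x : L.Pt k) : x ^ p ∈ L.frat p :=
  Subgroup.subset_closure (Or.inr ⟨x, rfl⟩)

/-- The first `b` coordinates are additive. -/
def Add (L : Law k N) (b : ℕ) : Prop :=
  ∀ j : Fin N, (j : ℕ) < b → ∀ x y : L.Pt k, (x * y).co j = x.co j + y.co j

namespace Add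

variable (h : L.Add b) {j : Fin N} (hj : (j : ℕ) < b)

include h hj

theorem inv (x : L.Pt k) : (x⁻¹).co j = -x.co j := by
  have h1 := h j hj x x⁻¹
  rw [mul_inv_cancel, Pt.co_one, Pi.zero_apply] at h1
  exact eq_neg_of_add_eq_zero_right h1.symm

theorem pow (x : L.Pt k) (n : ℕ) : (x ^ n).co j = n * x.co j := by
  induction n with
  | zero =>
    rw [pow_zero, Pt.co_one, Nat.cast_zero, zero_mul, Pi.zero_apply]
  | succ n ih =>
    rw [pow_succ, h j hj, ih, Nat.cast_succ]
    ring

theorem comm (x y : L.Pt k) : (⁅x, y⁆).co j = 0 := by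
  rw [commutatorElement_def, h j hj, h j hj, h j hj, h.inv hj, h.inv hj]
  ring

end Add

theorem Add.frat_le [CharP k p] (h : L.Add b) : L.frat p ≤ L.V k b := by
  refine (Subgroup.closure_le _).2 ?_
  rintro _ (⟨x, y, rfl⟩ | ⟨x, rfl⟩) j hj
  · exact h.comm hj x y
  · rw [h.pow hj, CharP.cast_eq_zero, zero_mul]
    rfl

/-! ### The section -/

variable (L)

/-- The point with the first coordinates `s` and the others `0`. -/
def sig (s : Fin b → k) : L.Pt k := ⟨fun a => if h : (a : ℕ) < b then s ⟨a, h⟩ else 0⟩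

/-- The first `b` coordinates. -/
def low (hb : b ≤ N) (x : Fin N → k) : Fin b → k := fun i => x (Fin.castLE hb i)

variable {L}

theorem sig_co (s : Fin b → k) {a : Fin N} (h : (a : ℕ) < b) : (L.sig s).co a = s ⟨a, h⟩ :=
  dif_pos h

theorem sig_zero : L.sig (0 : Fin b → k) = 1 := by
  refine Pt.ext (funext fun a => ?_)
  change (if h : (a : ℕ) < b then (0 : Fin b → k) ⟨a, h⟩ else 0) = 0
  split_ifs <;> rfl

theorem sig_pm {σ : Type*} {u : (σ → k) → Fin b → k} (hu : ∀ i, RPol fun x => u x i) :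
    PM fun x => L.sig (u x) := by
  intro a
  by_cases h : (a : ℕ) < b
  · have h1 : (fun x => (L.sig (u x)).co a) = fun x => u x ⟨a, h⟩ := by
      funext x
      exact sig_co _ h
    rw [h1]
    exact hu _
  · have h1 : (fun x => (L.sig (u x)).co a) = fun _ => 0 := by
      funext x
      exact dif_neg h
    rw [h1]
    exact RPol.const 0

/-- The cocycle of the section. -/
noncomputable def coc (L : Law k N) (s s' : Fin b → k) : L.Pt k :=
  L.sig s * L.sig s' * (L.sig (s + s'))⁻¹

theorem coc_mem (h : L.Add b) (s s' : Fin b → k) : L.coc s s' ∈ L.V k b := by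
  intro j hj
  change (L.coc s s').co j = 0
  rw [coc, h j hj, h j hj, h.inv hj, sig_co _ hj, sig_co _ hj, sig_co _ hj, Pi.add_apply]
  ring

theorem mul_sig_mem (h : L.Add b) (hb : b ≤ N) (u : L.Pt k) :
    u * (L.sig (low hb u.co))⁻¹ ∈ L.V k b := by
  intro j hj
  rw [h j hj, h.inv hj, sig_co _ hj]
  exact add_neg_cancel _

theorem low_mul' (h : L.Add b) (hb : b ≤ N) (u u' : L.Pt k) :
    low hb (u * u').co = low hb u.co + low hb u'.co := by
  funext i
  exact h _ i.2 u u'

theorem low_V (hb : b ≤ N) {u : L.Pt k} (hu : u ∈ L.V k b) : low hb u.co = 0 := by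
  funext i
  exact hu _ i.2

/-- **Density of the commutators and `p`-th powers in `V b`.** -/
theorem frat_dense [Infinite k] [Fact p.Prime] [CharP k p] (hb : b ≤ N)
    (h1 : L.Add b)
    (hX : ∀ χ : (Fin N → k) → k, RPol χ → (∀ x y : L.Pt k, χ (x * y).co = χ x.co + χ y.co) →
      ∀ u ∈ L.V k b, χ u.co = 0)
    {f : (Fin N → k) → k} (hf : RPol f) (hf0 : ∀ x ∈ L.frat p, f x.co = 0) {u₀ : L.Pt k}
    (hu₀ : u₀ ∈ L.V k b) : f u₀.co = 0 := by
  by_contra hne
  have hPV : L.frat p ≤ L.V k b := h1.frat_le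
  obtain ⟨ψ, hψ, hψa, ⟨x₀, hx₀⟩, hψ0⟩ := (L.sub b).exists_chi ((L.frat p).comap (L.emb b k))
    (F := fun z => f (ext0 N b z)) hf.comp_ext0 ⟨cut b u₀.co, by rw [ext0_cut hu₀]; exact hne⟩
    (fun z hz => hf0 _ hz)
  -- the function on `V b`
  set Ψ : L.Pt k → k := fun v => ψ (cut b v.co) with hΨ
  have hcut : ∀ z : Fin (N - b) → k, cut b (ext0 N b z) = z := by
    intro z
    funext i
    exact ext0_shf z i
  have hΨa : ∀ v ∈ L.V k b, ∀ v' ∈ L.V k b, Ψ (v * v') = Ψ v + Ψ v' := by
    intro v hv v' hv'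
    have h2 : L.emb b k (⟨cut b v.co⟩ * ⟨cut b v'.co⟩) = v * v' := by
      rw [MonoidHom.map_mul, emb_cut hv, emb_cut hv']
    have h3 : cut b (v * v').co = ((⟨cut b v.co⟩ * ⟨cut b v'.co⟩ : (L.sub b).Pt k)).co := by
      rw [← h2, emb_co, hcut]
    rw [hΨ]
    simp only
    rw [h3, hψa]
  have hΨP : ∀ v ∈ L.frat p, Ψ v = 0 := by
    intro v hv
    refine hψ0 ⟨cut b v.co⟩ ?_
    rw [Subgroup.mem_comap, emb_cut (hPV hv)]
    exact hv
  have hΨc : ∀ g : L.Pt k, ∀ v ∈ L.V k b, Ψ (g * v * g⁻¹) = Ψ v := by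
    intro g v hv
    have h2 : g * v * g⁻¹ = ⁅g, v⁆ * v := by
      rw [commutatorElement_def]
      group
    rw [h2, hΨa _ (hPV (comm_mem_frat g v)) _ hv, hΨP _ (comm_mem_frat g v), zero_add]
  have hΨpm : ∀ {σ : Type _} {F : (σ → k) → L.Pt k}, PM F → RPol fun x => Ψ (F x) :=
    fun hF => hψ.comp fun i => hF (shf N b i)
  have hΨ1 : Ψ 1 = 0 := hΨP 1 (one_mem _)
  -- the cocycle
  obtain ⟨g, hg, hfg⟩ := laz (p := p) b (fun s s' => Ψ (L.coc s s')) (by
      have h2 : RPol fun x : Fin b ⊕ Fin b → k =>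
          Ψ (L.coc (fun i => x (Sum.inl i)) fun i => x (Sum.inr i)) := by
        refine hΨpm ?_
        refine ((sig_pm fun i => RPol.proj _).mul (sig_pm fun i => RPol.proj _)).mul
          (sig_pm fun i => ?_).inv
        exact (RPol.proj (Sum.inl i)).add (RPol.proj (Sum.inr i))
      obtain ⟨P, hP⟩ := h2
      exact ⟨P, fun x y => hP (Sum.elim x y)⟩)
    (by
      intro s s'
      have h2 : L.coc s s' = ⁅L.sig s, L.sig s'⁆ * L.coc s' s := by
        rw [coc, coc, commutatorElement_def, add_comm s' s]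
        group
      rw [h2, hΨa _ (hPV (comm_mem_frat _ _)) _ (coc_mem h1 _ _), hΨP _ (comm_mem_frat _ _),
        zero_add])
    (by
      intro s
      rw [coc, sig_zero, one_mul, zero_add, mul_inv_cancel, hΨ1])
    (by
      intro s s' s''
      rw [← hΨa _ (coc_mem h1 _ _) _ (coc_mem h1 _ _), ← hΨc (L.sig s) _ (coc_mem h1 s' s''),
        ← hΨa _ (Subgroup.Normal.conj_mem inferInstance _ (coc_mem h1 _ _) _) _ (coc_mem h1 _ _)]
      congr 1
      simp only [coc, add_assoc]
      group)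
    (by
      intro s
      change ∑ i ∈ Finset.range p, Ψ (L.coc ((i : k) • s) s) = 0
      have h2 : ∀ n : ℕ, L.sig s ^ n * (L.sig ((n : k) • s))⁻¹ ∈ L.V k b ∧
          Ψ (L.sig s ^ n * (L.sig ((n : k) • s))⁻¹) =
            ∑ i ∈ Finset.range n, Ψ (L.coc ((i : k) • s) s) := by
        intro n
        induction n with
        | zero =>
          rw [pow_zero, Nat.cast_zero, zero_smul, sig_zero, inv_one, mul_one,
            Finset.range_zero, Finset.sum_empty]
          exact ⟨one_mem _, hΨ1⟩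
        | succ n ih =>
          have h3 : L.sig s ^ (n + 1) * (L.sig (((n + 1 : ℕ) : k) • s))⁻¹ =
              L.sig s ^ n * (L.sig ((n : k) • s))⁻¹ * L.coc ((n : k) • s) s := by
            rw [coc, Nat.cast_succ, add_smul, one_smul, pow_succ]
            group
          rw [h3, Finset.sum_range_succ, hΨa _ ih.1 _ (coc_mem h1 _ _), ih.2]
          exact ⟨mul_mem ih.1 (coc_mem h1 _ _), rfl⟩
      rw [← (h2 p).2, CharP.cast_eq_zero, zero_smul, sig_zero, inv_one, mul_one]
      exact hΨP _ (pow_mem_frat _))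
  have hfg' : ∀ s s' : Fin b → k, Ψ (L.coc s s') = g (s + s') - g s - g s' := fun s s' =>
    hfg s s'
  have hg0 : g 0 = 0 := by
    have h2 := hfg' 0 0
    rw [coc, sig_zero, add_zero, sig_zero, inv_one, mul_one, mul_one, hΨ1] at h2
    have h3 : g 0 = -(g 0 - g 0 - g 0) := by ring
    rw [h3, ← h2, neg_zero]
  -- the character
  have hV := hX (fun x => Ψ ((⟨x⟩ : L.Pt k) * (L.sig (low hb x))⁻¹) - g (low hb x)) (by
      refine (hΨpm ?_).sub (hg.comp fun i => RPol.proj _)
      exact PM.id.mul (sig_pm fun i => RPol.proj _).inv) (by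
      intro x y
      change Ψ (x * y * (L.sig (low hb (x * y).co))⁻¹) - g (low hb (x * y).co) =
        Ψ (x * (L.sig (low hb x.co))⁻¹) - g (low hb x.co) +
          (Ψ (y * (L.sig (low hb y.co))⁻¹) - g (low hb y.co))
      rw [low_mul' h1 hb]
      set s := low hb x.co with hs
      set s' := low hb y.co with hs'
      have h2 : x * y * (L.sig (s + s'))⁻¹ = x * (L.sig s)⁻¹ *
          (L.sig s * (y * (L.sig s')⁻¹) * (L.sig s)⁻¹) * L.coc s s' := by
        rw [coc]
        group
      have hm1 := mul_sig_mem h1 hb x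
      have hm2 := mul_sig_mem h1 hb y
      rw [← hs] at hm1
      rw [← hs'] at hm2
      have hm3 : L.sig s * (y * (L.sig s')⁻¹) * (L.sig s)⁻¹ ∈ L.V k b :=
        Subgroup.Normal.conj_mem inferInstance _ hm2 _
      rw [h2, hΨa _ (mul_mem hm1 hm3) _ (coc_mem h1 _ _), hΨa _ hm1 _ hm3, hΨc _ _ hm2, hfg']
      ring)
  have h2 := hV (L.emb b k ⟨x₀⟩) (L.emb_mem b _)
  have h3 : low hb (L.emb b k ⟨x₀⟩).co = 0 := low_V hb (L.emb_mem b _)
  change Ψ (L.emb b k ⟨x₀⟩ * (L.sig (low hb (L.emb b k ⟨x₀⟩).co))⁻¹) -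
    g (low hb (L.emb b k ⟨x₀⟩).co) = 0 at h2
  rw [h3, sig_zero, inv_one, mul_one, hg0, sub_zero] at h2
  refine hx₀ ?_
  have h4 : Ψ (L.emb b k ⟨x₀⟩) = ψ x₀ := by
    rw [hΨ]
    simp only
    rw [emb_co, hcut]
  rw [← h4, h2]

end Law

end Pool.Agent.TWGS
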