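import Mathlib

/-!
# Groups without schemes, A2: homomorphisms to the additive group

`op` a composition law on `k ^ N` with triangular translations.

* `exists_order`: a monomial order on `Fin N` for which `X_j` is greater than the monomials in the
  `X_i`, `i < j`;
* `coeff_tri`: a triangular substitution does not change the leading term;
* `exists_hom_core`: a set which is closed under `op` and not Zariski dense is in the kernel of a
  nonzero polynomial homomorphism to the additive group.
-/

set_option autoImplicit false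

open MvPolynomial

namespace Pool.Agent.TWGS

section Order

/-- The lexicographic order, the last variable is the first one. -/
noncomputable def mo (N : ℕ) : MonomialOrder (Fin N) := (MonomialOrder.lex : MonomialOrder (Fin N)ᵒᵈ)

theorem mo_lt {N : ℕ} (j : Fin N) {d : Fin N →₀ ℕ} (hd : ∀ i, d i ≠ 0 → i < j) :
    (mo N).toSyn d < (mo N).toSyn (Finsupp.single j 1) := by
  change toLex (α := (Fin N)ᵒᵈ →₀ ℕ) d < toLex (α := (Fin N)ᵒᵈ →₀ ℕ) (Finsupp.single j 1)
  rw [Finsupp.Lex.lt_iff]
  refine ⟨OrderDual.toDual j, fun i hi => ?_, ?_⟩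
  · have hi' : j < OrderDual.ofDual i := hi
    have h1 : d (OrderDual.ofDual i) = 0 := by
      by_contra h
      exact absurd (hd _ h) (not_lt.2 hi'.le)
    have h2 : (Finsupp.single j 1 : Fin N →₀ ℕ) (OrderDual.ofDual i) = 0 :=
      Finsupp.single_eq_of_ne hi'.ne'
    exact h1.trans h2.symm
  · have h1 : d j = 0 := by
      by_contra h
      exact absurd (hd _ h) (lt_irrefl _)
    have h2 : (Finsupp.single j 1 : Fin N →₀ ℕ) j = 1 := Finsupp.single_eq_same
    change d j < (Finsupp.single j 1 : Fin N →₀ ℕ) j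
    rw [h1, h2]
    exact one_pos

end Order

section Tri

variable {k : Type*} [Field k] {N : ℕ} {q : Fin N → MvPolynomial (Fin N) k}

theorem supp_lt {j : Fin N} {f : MvPolynomial (Fin N) k} (hf : f ∈ supported k {i | i < j})
    {d : Fin N →₀ ℕ} (hd : d ∈ f.support) : ∀ i, d i ≠ 0 → i < j := fun i hi =>
  (mem_supported.1 hf) ((mem_vars_iff_mem_support i).2 ⟨d, hd, Finsupp.mem_support_iff.2 hi⟩)

theorem deg_lt {j : Fin N} {f : MvPolynomial (Fin N) k} (hf : f ∈ supported k {i | i < j}) :
    (mo N).toSyn ((mo N).degree f) < (mo N).toSyn (Finsupp.single j 1) := by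
  by_cases h0 : f = 0
  · rw [h0, MonomialOrder.degree_zero]
    exact mo_lt j fun i hi => absurd rfl hi
  · exact mo_lt j (supp_lt hf ((mo N).degree_mem_support h0))

theorem tau_deg (hq : ∀ j, q j ∈ supported k {i | i < j}) (j : Fin N) :
    (mo N).degree (X j + q j) = Finsupp.single j 1 := by
  have h1 : (mo N).degree (X j : MvPolynomial (Fin N) k) = Finsupp.single j 1 :=
    MonomialOrder.degree_X
  rw [MonomialOrder.degree_add_of_lt, h1]
  rw [h1]
  exact deg_lt (hq j)

theorem tau_monic (hq : ∀ j, q j ∈ supported k {i | i < j}) (j : Fin N) :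
    (mo N).Monic (X j + q j) := by
  refine MonomialOrder.Monic.add_of_lt MonomialOrder.monic_X ?_
  rw [MonomialOrder.degree_X]
  exact deg_lt (hq j)

theorem mon_monic (hq : ∀ j, q j ∈ supported k {i | i < j}) (d : Fin N →₀ ℕ) :
    (mo N).Monic (∏ j, (X j + q j) ^ d j) ∧ (mo N).degree (∏ j, (X j + q j) ^ d j) = d := by
  refine ⟨MonomialOrder.Monic.prod fun j _ => (tau_monic hq j).pow, ?_⟩
  rw [MonomialOrder.degree_prod fun j _ => pow_ne_zero _ (tau_monic hq j).ne_zero]
  simp only [MonomialOrder.degree_pow, tau_deg hq]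
  ext i
  rw [Finsupp.finsetSum_apply, Finset.sum_eq_single i]
  · simp
  · intro b _ hb
    rw [Finsupp.smul_apply, Finsupp.single_eq_of_ne (Ne.symm hb), smul_zero]
  · exact fun h => absurd (Finset.mem_univ i) h

/-- **A triangular substitution does not change the leading term.** -/
theorem coeff_tri (hq : ∀ j, q j ∈ supported k {i | i < j}) (P : MvPolynomial (Fin N) k)
    {e : Fin N →₀ ℕ} (he : (mo N).toSyn ((mo N).degree P) ≤ (mo N).toSyn e) :
    coeff e (aeval (fun j => X j + q j) P - P) = 0 := by
  have h1 : aeval (fun j => X j + q j) P - P = ∑ d ∈ P.support,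
      (C (coeff d P) * ∏ j, (X j + q j) ^ d j - monomial d (coeff d P)) := by
    conv_lhs => rw [P.as_sum, map_sum, ← Finset.sum_sub_distrib]
    refine Finset.sum_congr rfl fun d _ => ?_
    rw [aeval_monomial, Finsupp.prod_fintype _ _ fun i => pow_zero _]
    rfl
  rw [h1, coeff_sum]
  refine Finset.sum_eq_zero fun d hd => ?_
  obtain ⟨h2, h3⟩ := mon_monic hq d
  have h4 : (mo N).toSyn d ≤ (mo N).toSyn e := ((mo N).le_degree hd).trans he
  rw [coeff_sub, coeff_C_mul, coeff_monomial]
  rcases h4.eq_or_lt with h5 | h5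
  · have h6 : d = e := (mo N).toSyn.injective h5
    have h7 := h2.coeff_degree
    rw [h3] at h7
    rw [← h6, h7, if_pos rfl, mul_one, sub_self]
  · have h6 : d ≠ e := fun h => by
      rw [h] at h5
      exact lt_irrefl _ h5
    have h7 : coeff e (∏ j, (X j + q j) ^ d j) = 0 :=
      MonomialOrder.coeff_eq_zero_of_lt (m := mo N) (by rw [h3]; exact h5)
    rw [if_neg h6, h7, mul_zero, sub_zero]

end Tri

/-- **Homomorphisms to the additive group.** -/
theorem exists_hom_core {k : Type*} [Field k] {N : ℕ}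
    (op : (Fin N → k) → (Fin N → k) → Fin N → k)
    (hR : ∀ g, ∃ q : Fin N → MvPolynomial (Fin N) k, (∀ j, q j ∈ supported k {i | i < j}) ∧
      ∀ x j, op x g j = x j + eval x (q j))
    (hL : ∀ g, ∃ q : Fin N → MvPolynomial (Fin N) k, (∀ j, q j ∈ supported k {i | i < j}) ∧
      ∀ x j, op g x j = x j + eval x (q j))
    [Infinite k] {S : Set (Fin N → k)} (hS0 : S.Nonempty) (hmul : ∀ s ∈ S, ∀ t ∈ S, op s t ∈ S)
    {P : MvPolynomial (Fin N) k} (hP : P ≠ 0) (hPS : ∀ s ∈ S, eval s P = 0) :
    ∃ χ : MvPolynomial (Fin N) k, χ ≠ 0 ∧ (∀ x y, eval (op x y) χ = eval x χ + eval y χ) ∧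
      ∀ s ∈ S, eval s χ = 0 := by
  classical
  obtain ⟨s₀, hs₀⟩ := hS0
  -- a minimal polynomial
  obtain ⟨χ, ⟨hχ0, hχS⟩, hmin⟩ : ∃ χ : MvPolynomial (Fin N) k, (χ ≠ 0 ∧ ∀ s ∈ S, eval s χ = 0) ∧
      ∀ Q : MvPolynomial (Fin N) k, Q ≠ 0 → (∀ s ∈ S, eval s Q = 0) →
        (mo N).toSyn ((mo N).degree χ) ≤ (mo N).toSyn ((mo N).degree Q) := by
    have hwf : WellFounded fun a b : (mo N).syn => a < b := (mo N).wf.wf
    set T : Set (mo N).syn := {a | ∃ Q : MvPolynomial (Fin N) k, Q ≠ 0 ∧ (∀ s ∈ S, eval s Q = 0) ∧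
      (mo N).toSyn ((mo N).degree Q) = a} with hT
    have hTn : T.Nonempty := ⟨_, P, hP, hPS, rfl⟩
    obtain ⟨χ, h1, h2, h3⟩ := hwf.min_mem T hTn
    refine ⟨χ, ⟨h1, h2⟩, fun Q hQ hQS => ?_⟩
    rw [h3]
    exact not_lt.1 (hwf.not_lt_min T ⟨Q, hQ, hQS, rfl⟩)
  set D := (mo N).degree χ with hD
  have hzero : ∀ Q : MvPolynomial (Fin N) k, (∀ s ∈ S, eval s Q = 0) →
      (∀ e, (mo N).toSyn D ≤ (mo N).toSyn e → coeff e Q = 0) → Q = 0 := by
    intro Q hQS hQ
    by_contra h0
    exact (mem_support_iff.1 ((mo N).degree_mem_support h0)) (hQ _ (hmin Q h0 hQS))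
  have hD0 : D ≠ 0 := by
    intro h
    have h1 := (mo N).eq_C_of_degree_eq_zero h
    have h2 := hχS s₀ hs₀
    rw [h1, eval_C] at h2
    rw [h1, h2, C_0] at hχ0
    exact hχ0 rfl
  have hev : ∀ (q : Fin N → MvPolynomial (Fin N) k) (x : Fin N → k) (Q : MvPolynomial (Fin N) k),
      eval x (aeval (fun j => X j + q j) Q) = eval (fun j => x j + eval x (q j)) Q := by
    intro q x Q
    change aeval x (aeval (fun j => X j + q j) Q) = aeval (fun j => x j + eval x (q j)) Q
    rw [← AlgHom.comp_apply, comp_aeval]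
    congr 2
    funext j
    rw [map_add, aeval_X]
    rfl
  -- right invariance
  have h1 : ∀ g ∈ S, ∀ x, eval (op x g) χ = eval x χ := by
    intro g hg x
    obtain ⟨q, hq, hq'⟩ := hR g
    have h2 := hzero (aeval (fun j => X j + q j) χ - χ) (fun s hs => by
      rw [map_sub, hev, hχS s hs, sub_zero, ← funext (hq' s)]
      exact hχS _ (hmul s hs g hg)) fun e he => coeff_tri hq χ he
    have h3 := congrArg (eval x) h2
    rw [map_sub, hev, map_zero, sub_eq_zero, ← funext (hq' x)] at h3
    exact h3
  refine ⟨χ, hχ0, fun g y => ?_, hχS⟩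
  obtain ⟨q, hq, hq'⟩ := hL g
  have h2 := hzero (aeval (fun j => X j + q j) χ - χ - C (eval g χ)) (fun s hs => by
    rw [map_sub, map_sub, hev, hχS s hs, sub_zero, eval_C, ← funext (hq' s), h1 s hs g, sub_self])
    fun e he => by
      rw [coeff_sub, coeff_tri hq χ he, coeff_C, if_neg, sub_zero]
      intro h3
      rw [← h3] at he
      have h4 : (mo N).toSyn D ≤ 0 := by rwa [map_zero] at he
      have h5 : (mo N).toSyn D = 0 := le_antisymm h4 ((mo N).bot_eq_zero ▸ bot_le)
      exact hD0 ((mo N).toSyn.injective (by rw [h5, map_zero]))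
  have h3 := congrArg (eval y) h2
  rw [map_sub, map_sub, hev, map_zero, eval_C, sub_eq_zero, sub_eq_iff_eq_add,
    ← funext (hq' y)] at h3
  rw [h3]

section Law

variable {k : Type*} [Field k] {N : ℕ}

theorem aeval_mem {σ A : Type*} [CommSemiring A] [Algebra k A] (S : Subalgebra k A) {f : σ → A}
    (hf : ∀ i, f i ∈ S) (p : MvPolynomial σ k) : aeval f p ∈ S := by
  induction p using MvPolynomial.induction_on with
  | C a => rw [aeval_C]; exact S.algebraMap_mem a
  | add p q hp hq => rw [map_add]; exact S.add_mem hp hq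
  | mul_X p i hp => rw [map_mul, aeval_X]; exact S.mul_mem hp (hf i)

/-- The translations of a triangular law. -/
theorem exists_q (beta : Fin N → MvPolynomial (Fin N ⊕ Fin N) k)
    (tri : ∀ j (x x' y y' : Fin N → k), (∀ i, i < j → x i = x' i) → (∀ i, i < j → y i = y' i) →
      eval (Sum.elim x y) (beta j) = eval (Sum.elim x' y') (beta j)) (g : Fin N → k) :
    (∃ q : Fin N → MvPolynomial (Fin N) k, (∀ j, q j ∈ supported k {i | i < j}) ∧
      ∀ x j, x j + g j + eval (Sum.elim x g) (beta j) = x j + eval x (q j)) ∧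
    ∃ q : Fin N → MvPolynomial (Fin N) k, (∀ j, q j ∈ supported k {i | i < j}) ∧
      ∀ x j, g j + x j + eval (Sum.elim g x) (beta j) = x j + eval x (q j) := by
  classical
  have hX : ∀ j i : Fin N, (if i < j then X i else 0 : MvPolynomial (Fin N) k) ∈
      supported k {i | i < j} := fun j i => by
    split_ifs with h
    · exact X_mem_supported.2 h
    · exact zero_mem _
  have hC : ∀ (j : Fin N) (a : k), (C a : MvPolynomial (Fin N) k) ∈ supported k {i | i < j} :=
    fun j a => (supported k {i | i < j}).algebraMap_mem a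
  refine ⟨⟨fun j => C (g j) + aeval (Sum.elim (fun i => if i < j then X i else 0)
      fun i => C (g i)) (beta j), fun j => (supported k {i | i < j}).add_mem (hC j _)
      (aeval_mem _ (fun i => ?_) _), fun x j => ?_⟩,
    ⟨fun j => C (g j) + aeval (Sum.elim (fun i => C (g i))
      fun i => if i < j then X i else 0) (beta j), fun j => (supported k {i | i < j}).add_mem
      (hC j _) (aeval_mem _ (fun i => ?_) _), fun x j => ?_⟩⟩
  · rcases i with i | i
    · exact hX j i
    · exact hC j _
  · have h1 : eval x (aeval (Sum.elim (fun i => if i < j then X i else 0) fun i => C (g i))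
        (beta j)) = eval (Sum.elim (fun i => if i < j then x i else 0) g) (beta j) := by
      change aeval x (aeval _ (beta j)) = aeval _ (beta j)
      rw [← AlgHom.comp_apply, comp_aeval]
      congr 2
      funext i
      rcases i with i | i
      · simp only [Sum.elim_inl]
        split_ifs
        · exact aeval_X _ _
        · exact map_zero _
      · simp only [Sum.elim_inr]
        exact aeval_C _ _
    rw [map_add, eval_C, h1, add_assoc, tri j (fun i => if i < j then x i else 0) x g g
      (fun i hi => if_pos hi) fun _ _ => rfl]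
  · rcases i with i | i
    · exact hC j _
    · exact hX j i
  · have h1 : eval x (aeval (Sum.elim (fun i => C (g i)) fun i => if i < j then X i else 0)
        (beta j)) = eval (Sum.elim g (fun i => if i < j then x i else 0)) (beta j) := by
      change aeval x (aeval _ (beta j)) = aeval _ (beta j)
      rw [← AlgHom.comp_apply, comp_aeval]
      congr 2
      funext i
      rcases i with i | i
      · simp only [Sum.elim_inl]
        exact aeval_C _ _
      · simp only [Sum.elim_inr]
        split_ifs
        · exact aeval_X _ _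
        · exact map_zero _
    rw [map_add, eval_C, h1, ← add_assoc, add_comm (x j) (g j), tri j g g
      (fun i => if i < j then x i else 0) x (fun _ _ => rfl) fun i hi => if_pos hi]

/-- **A2 (homomorphisms to the additive group), for a law `x + y + beta (x, y)`.** A set closed
under the law which is not Zariski dense is in the kernel of a nonzero polynomial homomorphism. -/
theorem exists_hom_law [Infinite k] (beta : Fin N → MvPolynomial (Fin N ⊕ Fin N) k)
    (tri : ∀ j (x x' y y' : Fin N → k), (∀ i, i < j → x i = x' i) → (∀ i, i < j → y i = y' i) →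
      eval (Sum.elim x y) (beta j) = eval (Sum.elim x' y') (beta j))
    {S : Set (Fin N → k)} (hS0 : S.Nonempty)
    (hmul : ∀ s ∈ S, ∀ t ∈ S, (fun j => s j + t j + eval (Sum.elim s t) (beta j)) ∈ S)
    {P : MvPolynomial (Fin N) k} (hP : P ≠ 0) (hPS : ∀ s ∈ S, eval s P = 0) :
    ∃ χ : MvPolynomial (Fin N) k, χ ≠ 0 ∧
      (∀ x y, eval (fun j => x j + y j + eval (Sum.elim x y) (beta j)) χ =
        eval x χ + eval y χ) ∧ ∀ s ∈ S, eval s χ = 0 :=
  exists_hom_core (fun x y j => x j + y j + eval (Sum.elim x y) (beta j))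
    (fun g => (exists_q beta tri g).1) (fun g => (exists_q beta tri g).2) hS0 hmul hP hPS

end Law

end Pool.Agent.TWGS
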