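import Pool.Agent.Lib.TWGS.Pol
import Pool.Agent.Lib.TWGS.HomC

/-!
# Groups without schemes, A2 for `Law`

`Law.exists_hom`, `Law.exists_chi`: a subgroup of the `k`-points of a triangular law which is not
Zariski dense is in the kernel of a nonzero polynomial homomorphism to the additive group.
-/

set_option autoImplicit false

open MvPolynomial

namespace Pool.Agent.TWGS

variable {k : Type*} [Field k] {N : ℕ}

/-- **A2**, for polynomials. -/
theorem Law.exists_hom [Infinite k] {G : Law k N} (S : Subgroup (G.Pt k))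
    {P : MvPolynomial (Fin N) k} (hP : P ≠ 0) (hPS : ∀ s ∈ S, eval s.co P = 0) :
    ∃ χ : MvPolynomial (Fin N) k, G.IsChi χ ∧ χ ≠ 0 ∧ ∀ s ∈ S, eval s.co χ = 0 := by
  obtain ⟨χ, h1, h2, h3⟩ := exists_hom_law G.bet
    (fun j x x' y y' hx hy => G.bet_congr (R := k) hx hy)
    (S := {x : Fin N → k | (⟨x⟩ : G.Pt k) ∈ S}) ⟨0, S.one_mem⟩
    (fun s hs t ht => S.mul_mem hs ht) hP (fun s hs => hPS ⟨s⟩ hs)
  exact ⟨χ, fun x y => h2 x.co y.co, h1, fun s hs => h3 s.co hs⟩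

/-- **A2**, for polynomial functions. -/
theorem Law.exists_chi [Infinite k] (G : Law k N) (S : Subgroup (G.Pt k)) {F : (Fin N → k) → k}
    (hF : RPol F) (h0 : ∃ x, F x ≠ 0) (hS : ∀ x ∈ S, F x.co = 0) :
    ∃ χ : (Fin N → k) → k, RPol χ ∧ (∀ x y : G.Pt k, χ (x * y).co = χ x.co + χ y.co) ∧
      (∃ x, χ x ≠ 0) ∧ ∀ x ∈ S, χ x.co = 0 := by
  obtain ⟨P, hP⟩ := hF
  obtain ⟨x₀, hx₀⟩ := h0
  obtain ⟨χ, h1, h2, h3⟩ := Law.exists_hom S (P := P) (fun h => by
    rw [← hP, h, map_zero] at hx₀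
    exact hx₀ rfl) (fun s hs => by rw [hP]; exact hS s hs)
  refine ⟨fun x => eval x χ, ⟨χ, fun _ => rfl⟩, h1, ?_, h3⟩
  by_contra h
  push Not at h
  exact h2 (MvPolynomial.funext fun x => by rw [h x, map_zero])

end Pool.Agent.TWGS
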