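import Mathlib

/-!
# Groups without schemes, A1: the `R`-points of a set

`k` a field, `S` a set of points of `k ^ σ`, `R` a commutative `k`-algebra.

* `Pts S R`: the points of `R ^ σ` at which all the polynomials over `k` which vanish on `S` vanish;
* `pts_zero`: a polynomial over `R` which vanishes on `S` vanishes on `Pts S R'`;
* `pts_map`, `pts_prod`: polynomial maps, products;
* `Irr S`: `S` is irreducible; images, products, directed unions, finite sets.
-/

set_option autoImplicit false

open MvPolynomial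

namespace Pool.Agent.TWGS

universe w

section Pts

variable {k : Type*} [Field k] {σ τ : Type*}

/-- The `R`-points of a set of points. -/
def Pts (S : Set (σ → k)) (R : Type*) [CommRing R] [Algebra k R] : Set (σ → R) :=
  {x | ∀ f : MvPolynomial σ k, (∀ s ∈ S, eval s f = 0) → aeval x f = 0}

theorem aev {R : Type*} [CommSemiring R] (x : σ → R) (f : MvPolynomial σ R) :
    aeval x f = eval x f := rfl

section

variable {R : Type w} [CommRing R] [Algebra k R]

theorem aev_map (s : σ → k) (f : MvPolynomial σ k) :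
    aeval (fun i => algebraMap k R (s i)) f = algebraMap k R (eval s f) := by
  rw [show (fun i => algebraMap k R (s i)) = algebraMap k R ∘ s from rfl, aeval_algebraMap_apply,
    aev]

theorem pts_mono {S T : Set (σ → k)} (h : S ⊆ T) : Pts S R ⊆ Pts T R := fun _ hx f hf =>
  hx f fun s hs => hf s (h hs)

theorem mem_pts_of_mem {S : Set (σ → k)} {s : σ → k} (hs : s ∈ S) :
    (fun i => algebraMap k R (s i)) ∈ Pts S R := by
  intro f hf
  rw [aev_map, hf s hs, map_zero]

/-- The coordinates of a polynomial over `R` in a basis of `R`. -/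
theorem exists_coord (F : MvPolynomial σ R) : ∃ (ι : Type w) (I : Finset ι) (b : ι → R)
    (G : ι → MvPolynomial σ k), LinearIndependent k b ∧
      F = ∑ i ∈ I, b i • (G i).map (algebraMap k R) := by
  classical
  set b := Module.Basis.ofVectorSpace k R with hb
  set I := F.support.biUnion fun m => (b.repr (F.coeff m)).support with hI
  refine ⟨_, I, b, fun i => ∑ m ∈ F.support, monomial m (b.repr (F.coeff m) i),
    b.linearIndependent, ?_⟩
  have hc : ∀ m ∈ F.support, F.coeff m = ∑ i ∈ I, b.repr (F.coeff m) i • b i := by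
    intro m hm
    conv_lhs => rw [← b.linearCombination_repr (F.coeff m), Finsupp.linearCombination_apply]
    refine Finsupp.sum_of_support_subset _ ?_ _ fun i _ => zero_smul _ _
    exact fun i hi => Finset.mem_biUnion.2 ⟨m, hm, hi⟩
  conv_lhs => rw [F.as_sum]
  simp only [map_sum, Finset.smul_sum]
  rw [Finset.sum_comm]
  refine Finset.sum_congr rfl fun m hm => ?_
  conv_lhs => rw [hc m hm, map_sum]
  refine Finset.sum_congr rfl fun i _ => ?_
  rw [map_monomial, smul_monomial, smul_eq_mul, Algebra.smul_def, mul_comm]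

end

/-- **A polynomial over `R` which vanishes on `S` vanishes on `Pts S R'`.** -/
theorem pts_zero {R R' : Type*} [CommRing R] [Algebra k R] [CommRing R'] [Algebra k R']
    [Algebra R R'] [IsScalarTower k R R'] {S : Set (σ → k)} {F : MvPolynomial σ R}
    (hF : ∀ s ∈ S, eval (fun i => algebraMap k R (s i)) F = 0) {x : σ → R'} (hx : x ∈ Pts S R') :
    aeval x F = 0 := by
  classical
  obtain ⟨ι, I, b, G, hb, rfl⟩ := exists_coord (k := k) F
  have hG0 : ∀ i ∈ I, ∀ s ∈ S, eval s (G i) = 0 := by
    intro i hi s hs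
    have h1 := hF s hs
    rw [map_sum] at h1
    refine linearIndependent_iff'.1 hb I (fun i => eval s (G i)) ?_ i hi
    rw [← h1]
    refine Finset.sum_congr rfl fun j _ => ?_
    rw [smul_eval]
    change eval s (G j) • b j = b j * aeval (fun i => algebraMap k R (s i)) _
    rw [aeval_map_algebraMap, aev_map, mul_comm, Algebra.smul_def]
  rw [map_sum]
  refine Finset.sum_eq_zero fun i hi => ?_
  rw [map_smul, aeval_map_algebraMap, hx (G i) (hG0 i hi), smul_zero]

section Map

variable {R R' : Type*} [CommRing R] [Algebra k R] [CommRing R'] [Algebra k R'] [Algebra R R']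
  [IsScalarTower k R R']

/-- **Polynomial maps.** -/
theorem pts_map {S : Set (σ → k)} {T : Set (τ → k)} {φ : τ → MvPolynomial σ R}
    (h : ∀ s ∈ S, (fun j => eval (fun i => algebraMap k R (s i)) (φ j)) ∈ Pts T R) {x : σ → R'}
    (hx : x ∈ Pts S R') : (fun j => aeval x (φ j)) ∈ Pts T R' := by
  intro f hf
  have h1 : ∀ y : σ → R', aeval y (aeval φ f) = aeval (fun j => aeval y (φ j)) f := by
    intro y
    rw [← AlgHom.restrictScalars_apply k (aeval y : MvPolynomial σ R →ₐ[R] R'),
      ← AlgHom.comp_apply, comp_aeval]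
    rfl
  have h2 : ∀ y : σ → R, eval y (aeval φ f) = aeval (fun j => eval y (φ j)) f := by
    intro y
    change aeval y (aeval φ f) = aeval (fun j => aeval y (φ j)) f
    rw [← AlgHom.restrictScalars_apply k (aeval y : MvPolynomial σ R →ₐ[R] R),
      ← AlgHom.comp_apply, comp_aeval]
    rfl
  rw [← h1]
  refine pts_zero (k := k) (fun s hs => ?_) hx
  rw [h2]
  exact h s hs f hf

/-- The projection of a pair. -/
def prodS (S : Set (σ → k)) (T : Set (τ → k)) : Set (σ ⊕ τ → k) :=
  {z | (fun i => z (Sum.inl i)) ∈ S ∧ (fun j => z (Sum.inr j)) ∈ T}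

/-- **Products.** -/
theorem pts_prod {S : Set (σ → k)} {T : Set (τ → k)} {x : σ → R} {y : τ → R} (hx : x ∈ Pts S R)
    (hy : y ∈ Pts T R) : Sum.elim x y ∈ Pts (prodS S T) R := by
  intro f hf
  -- `f(s, y) = 0` for `s ∈ S`
  have h1 : ∀ s ∈ S, aeval (Sum.elim (fun i => algebraMap k R (s i)) y) f = 0 := by
    intro s hs
    set g : MvPolynomial τ k := aeval (Sum.elim (fun i => C (s i)) X) f with hg
    have h2 : ∀ t ∈ T, eval t g = 0 := by
      intro t ht
      rw [hg]
      change aeval t (aeval (Sum.elim (fun i => C (s i)) X) f) = 0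
      rw [← AlgHom.comp_apply, comp_aeval]
      have e : (fun i => (aeval t : MvPolynomial τ k →ₐ[k] k)
          (Sum.elim (fun i => C (s i)) X i)) = Sum.elim s t := by
        funext i
        rcases i with i | i
        · simp
        · simp
      rw [e]
      exact hf (Sum.elim s t) ⟨hs, ht⟩
    have h3 := hy g h2
    rw [hg, ← AlgHom.comp_apply, comp_aeval] at h3
    have e : (fun i => (aeval y : MvPolynomial τ k →ₐ[k] R)
        (Sum.elim (fun i => C (s i)) X i)) = Sum.elim (fun i => algebraMap k R (s i)) y := by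
      funext i
      rcases i with i | i
      · simp
      · simp
    rw [e] at h3
    exact h3
  set F : MvPolynomial σ R := aeval (Sum.elim X fun j => C (y j)) f with hF
  have h4 : ∀ z : σ → R, aeval z F = aeval (Sum.elim z y) f := by
    intro z
    rw [hF, ← AlgHom.restrictScalars_apply k (aeval z : MvPolynomial σ R →ₐ[R] R),
      ← AlgHom.comp_apply, comp_aeval]
    congr 2
    funext i
    rcases i with i | i
    · simp
    · simp
  rw [← h4]
  refine pts_zero (k := k) (R := R) (R' := R) (fun s hs => ?_) hx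
  change aeval (fun i => algebraMap k R (s i)) F = 0
  rw [h4]
  exact h1 s hs

end Map

/-! ### Irreducible sets -/

section Irr

/-- Irreducible sets. -/
def Irr (S : Set (σ → k)) : Prop :=
  S.Nonempty ∧ ∀ f g : MvPolynomial σ k, (∀ s ∈ S, eval s f * eval s g = 0) →
    (∀ s ∈ S, eval s f = 0) ∨ ∀ s ∈ S, eval s g = 0

theorem irr_univ [Infinite k] : Irr (Set.univ : Set (σ → k)) := by
  refine ⟨⟨0, trivial⟩, fun f g h => ?_⟩
  have h1 : f * g = 0 := by
    refine MvPolynomial.funext fun x => ?_
    rw [map_mul, map_zero]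
    exact h x trivial
  rcases mul_eq_zero.1 h1 with h2 | h2
  · exact Or.inl fun s _ => by rw [h2, map_zero]
  · exact Or.inr fun s _ => by rw [h2, map_zero]

theorem irr_singleton (x : σ → k) : Irr ({x} : Set (σ → k)) := by
  refine ⟨⟨x, rfl⟩, fun f g h => ?_⟩
  rcases mul_eq_zero.1 (h x rfl) with h2 | h2
  · exact Or.inl fun s hs => by rw [Set.mem_singleton_iff.1 hs]; exact h2
  · exact Or.inr fun s hs => by rw [Set.mem_singleton_iff.1 hs]; exact h2

/-- Images under polynomial maps. -/
theorem Irr.image {S : Set (σ → k)} (h : Irr S) (φ : τ → MvPolynomial σ k) :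
    Irr ((fun s j => eval s (φ j)) '' S) := by
  have e : ∀ (s : σ → k) (f : MvPolynomial τ k),
      eval s (aeval φ f) = eval (fun j => eval s (φ j)) f := by
    intro s f
    change aeval s (aeval φ f) = aeval (fun j => eval s (φ j)) f
    rw [← AlgHom.comp_apply, comp_aeval]
    rfl
  refine ⟨h.1.image _, fun f g hfg => ?_⟩
  rcases h.2 (aeval φ f) (aeval φ g) (fun s hs => by
    rw [e, e]
    exact hfg _ ⟨s, hs, rfl⟩) with h1 | h1
  · left
    rintro _ ⟨s, hs, rfl⟩
    rw [← e]
    exact h1 s hs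
  · right
    rintro _ ⟨s, hs, rfl⟩
    rw [← e]
    exact h1 s hs

/-- Images under maps which are given by polynomials. -/
theorem Irr.image' {S : Set (σ → k)} (h : Irr S) {F : (σ → k) → τ → k}
    (hF : ∃ φ : τ → MvPolynomial σ k, ∀ s ∈ S, ∀ j, F s j = eval s (φ j)) : Irr (F '' S) := by
  obtain ⟨φ, hφ⟩ := hF
  have e : F '' S = (fun s j => eval s (φ j)) '' S := by
    refine Set.image_congr fun s hs => ?_
    funext j
    exact hφ s hs j
  rw [e]
  exact h.image φ

omit [Field k] in
theorem sum_elim_eta (z : σ ⊕ τ → k) :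
    Sum.elim (fun i => z (Sum.inl i)) (fun j => z (Sum.inr j)) = z := by
  funext i
  rcases i with i | i <;> rfl

omit [Field k] in
theorem elim_mem_prodS {S : Set (σ → k)} {T : Set (τ → k)} {s : σ → k} {t : τ → k} (hs : s ∈ S)
    (ht : t ∈ T) : Sum.elim s t ∈ prodS S T := ⟨hs, ht⟩

/-- Products. -/
theorem Irr.prod {S : Set (σ → k)} {T : Set (τ → k)} (hS : Irr S) (hT : Irr T) :
    Irr (prodS S T) := by
  obtain ⟨s₀, hs₀⟩ := hS.1
  obtain ⟨t₀, ht₀⟩ := hT.1
  refine ⟨⟨_, elim_mem_prodS hs₀ ht₀⟩, fun f g hfg => ?_⟩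
  have eT : ∀ (s : σ → k) (t : τ → k) (f : MvPolynomial (σ ⊕ τ) k),
      eval t (aeval (Sum.elim (fun i => C (s i)) X) f : MvPolynomial τ k) =
        eval (Sum.elim s t) f := by
    intro s t f
    change aeval t (aeval (Sum.elim (fun i => C (s i)) X) f) = aeval (Sum.elim s t) f
    rw [← AlgHom.comp_apply, comp_aeval]
    congr 2
    funext i
    rcases i with i | i
    · simp
    · simp
  have eS : ∀ (s : σ → k) (t : τ → k) (f : MvPolynomial (σ ⊕ τ) k),
      eval s (aeval (Sum.elim X fun j => C (t j)) f : MvPolynomial σ k) =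
        eval (Sum.elim s t) f := by
    intro s t f
    change aeval s (aeval (Sum.elim X fun j => C (t j)) f) = aeval (Sum.elim s t) f
    rw [← AlgHom.comp_apply, comp_aeval]
    congr 2
    funext i
    rcases i with i | i
    · simp
    · simp
  by_contra hno
  push Not at hno
  obtain ⟨⟨z, hz, hz1⟩, w, hw, hw1⟩ := hno
  have h1 : ∀ s ∈ S, (∀ t ∈ T, eval (Sum.elim s t) f = 0) ∨ ∀ t ∈ T, eval (Sum.elim s t) g = 0 := by
    intro s hs
    have h2 := hT.2 (aeval (Sum.elim (fun i => C (s i)) X) f)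
      (aeval (Sum.elim (fun i => C (s i)) X) g) fun t ht => by
        rw [eT, eT]
        exact hfg _ (elim_mem_prodS hs ht)
    simpa only [eT] using h2
  rcases hS.2 (aeval (Sum.elim X fun j => C (z (Sum.inr j))) f)
    (aeval (Sum.elim X fun j => C (w (Sum.inr j))) g) (fun s hs => by
      rw [eS, eS]
      rcases h1 s hs with h2 | h2
      · rw [h2 _ hz.2, zero_mul]
      · rw [h2 _ hw.2, mul_zero]) with h2 | h2
  · refine hz1 ?_
    have h3 := h2 _ hz.1
    rw [eS, sum_elim_eta] at h3
    exact h3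
  · refine hw1 ?_
    have h3 := h2 _ hw.1
    rw [eS, sum_elim_eta] at h3
    exact h3

/-- Directed unions. -/
theorem Irr.iUnion {ι : Type*} [Nonempty ι] {S : ι → Set (σ → k)} (h : ∀ i, Irr (S i))
    (hd : Directed (· ⊆ ·) S) : Irr (⋃ i, S i) := by
  obtain ⟨i₀⟩ := ‹Nonempty ι›
  obtain ⟨s₀, hs₀⟩ := (h i₀).1
  refine ⟨⟨s₀, Set.mem_iUnion.2 ⟨i₀, hs₀⟩⟩, fun f g hfg => ?_⟩
  by_contra hno
  push Not at hno
  obtain ⟨⟨s, hs, hs1⟩, t, ht, ht1⟩ := hno
  obtain ⟨i, hi⟩ := Set.mem_iUnion.1 hs
  obtain ⟨j, hj⟩ := Set.mem_iUnion.1 ht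
  obtain ⟨l, hl1, hl2⟩ := hd i j
  rcases (h l).2 f g (fun x hx => hfg x (Set.mem_iUnion.2 ⟨l, hx⟩)) with h1 | h1
  · exact hs1 (h1 s (hl1 hi))
  · exact ht1 (h1 t (hl2 hj))

/-- Finite irreducible sets. -/
theorem Irr.subsingleton {S : Set (σ → k)} (h : Irr S) (hS : S.Finite) : S.Subsingleton := by
  classical
  intro a ha b hb
  by_contra hab
  -- a polynomial which vanishes on `S` without `a`
  have h1 : ∀ t : σ → k, t ≠ a → ∃ f : MvPolynomial σ k, eval t f = 0 ∧ eval a f ≠ 0 := by
    intro t ht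
    obtain ⟨i, hi⟩ := Function.ne_iff.1 ht
    refine ⟨X i - C (t i), by simp, ?_⟩
    rw [map_sub, eval_X, eval_C]
    exact sub_ne_zero.2 (Ne.symm hi)
  choose! f hf using h1
  set F : MvPolynomial σ k := ∏ t ∈ hS.toFinset.erase a, f t with hF
  have hF0 : ∀ t ∈ S, t ≠ a → eval t F = 0 := by
    intro t ht hta
    rw [hF, map_prod]
    exact Finset.prod_eq_zero (Finset.mem_erase.2 ⟨hta, hS.mem_toFinset.2 ht⟩) (hf t hta).1
  have hFa : eval a F ≠ 0 := by
    rw [hF, map_prod]
    exact Finset.prod_ne_zero_iff.2 fun t ht => (hf t (Finset.ne_of_mem_erase ht)).2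
  obtain ⟨i, hi⟩ := Function.ne_iff.1 hab
  rcases h.2 F (X i - C (a i)) (fun t ht => by
    by_cases hta : t = a
    · rw [hta, map_sub, eval_X, eval_C, sub_self, mul_zero]
    · rw [hF0 t ht hta, zero_mul]) with h2 | h2
  · exact hFa (h2 a ha)
  · have h3 := h2 b hb
    rw [map_sub, eval_X, eval_C, sub_eq_zero] at h3
    exact hi h3.symm

end Irr

end Pts

end Pool.Agent.TWGS
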