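import Mathlib

/-!
# TEXT A, group side, A0: triangular polynomial group laws

* `mulP`, `Law`: a triangular polynomial group law on affine `N`-space over `k`;
* `Law.Pt G R`: the group of the points with values in a commutative `k`-algebra `R`;
* `Law.map`: functoriality; `Law.incl : G.Pt k →* G.Pt R`;
* `Law.V R j`: the points with the first `j` coordinates `0` (normal, `[U, V j] ≤ V (j + 1)`,
  `(V j)^p ≤ V (j + 1)`);
* `Law.invp`: the polynomials of the inverse;
* `Law.sub`: the law of `V b`.
-/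

set_option autoImplicit false
set_option linter.unusedSectionVars false

open MvPolynomial

namespace Pool.Agent.TWGS

universe u w w'

section Mul

variable {k : Type u} [CommRing k] {N : ℕ} {R : Type w} [CommRing R] [Algebra k R]
  {R' : Type w'} [CommRing R'] [Algebra k R']

/-- The product `x + y + bet(x, y)`. -/
noncomputable def mulP (bet : Fin N → MvPolynomial (Fin N ⊕ Fin N) k) (x y : Fin N → R) :
    Fin N → R :=
  fun j => x j + y j + aeval (Sum.elim x y) (bet j)

theorem map_mulP (bet : Fin N → MvPolynomial (Fin N ⊕ Fin N) k) (φ : R →ₐ[k] R')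
    (x y : Fin N → R) : (fun j => φ (mulP bet x y j)) =
      mulP bet (fun j => φ (x j)) (fun j => φ (y j)) := by
  funext j
  simp only [mulP, map_add]
  congr 1
  have h1 : φ (aeval (Sum.elim x y) (bet j)) = aeval (φ ∘ Sum.elim x y) (bet j) := by
    rw [← AlgHom.comp_apply, comp_aeval]
    rfl
  rw [h1, Sum.comp_elim]
  rfl

/-- The generic points. -/
noncomputable def gen3 (k : Type u) [CommRing k] (N : ℕ) (a : Fin 3) :
    Fin N → MvPolynomial (Fin 3 × Fin N) k :=
  fun j => X (a, j)

end Mul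

/-- A triangular polynomial group law on affine `N`-space. -/
structure Law (k : Type u) [CommRing k] (N : ℕ) where
  /-- the deviation from the addition -/
  bet : Fin N → MvPolynomial (Fin N ⊕ Fin N) k
  tri : ∀ j, ∀ s ∈ (bet j).vars, Sum.elim id id s < j
  zl : ∀ j, aeval (Sum.elim 0 X : Fin N ⊕ Fin N → MvPolynomial (Fin N) k) (bet j) = 0
  zr : ∀ j, aeval (Sum.elim X 0 : Fin N ⊕ Fin N → MvPolynomial (Fin N) k) (bet j) = 0
  assoc : mulP bet (mulP bet (gen3 k N 0) (gen3 k N 1)) (gen3 k N 2) =
    mulP bet (gen3 k N 0) (mulP bet (gen3 k N 1) (gen3 k N 2))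

/-- Points of a law with values in `R`. -/
@[ext] structure Law.Pt {k : Type u} [CommRing k] {N : ℕ} (G : Law k N) (R : Type w) where
  /-- the coordinates -/
  co : Fin N → R

namespace Law

variable {k : Type u} [CommRing k] {N : ℕ} (G : Law k N) {R : Type w} [CommRing R] [Algebra k R]
  {R' : Type w'} [CommRing R'] [Algebra k R']

theorem bet_congr {x x' y y' : Fin N → R} {j : Fin N} (hx : ∀ i < j, x i = x' i)
    (hy : ∀ i < j, y i = y' i) :
    aeval (Sum.elim x y) (G.bet j) = aeval (Sum.elim x' y') (G.bet j) := by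
  refine eval₂Hom_congr' rfl (fun s hs _ => ?_) rfl
  have h := G.tri j s hs
  rcases s with i | i
  · exact hx i h
  · exact hy i h

theorem bet_zero_left (y : Fin N → R) (j : Fin N) :
    aeval (Sum.elim 0 y) (G.bet j) = (0 : R) := by
  have h := congrArg (aeval (R := k) y) (G.zl j)
  rw [map_zero, ← AlgHom.comp_apply, comp_aeval] at h
  rw [← h]
  congr 2
  funext s
  rcases s with i | i <;> simp

theorem bet_zero_right (x : Fin N → R) (j : Fin N) :
    aeval (Sum.elim x 0) (G.bet j) = (0 : R) := by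
  have h := congrArg (aeval (R := k) x) (G.zr j)
  rw [map_zero, ← AlgHom.comp_apply, comp_aeval] at h
  rw [← h]
  congr 2
  funext s
  rcases s with i | i <;> simp

theorem mulP_zero_left (y : Fin N → R) : mulP G.bet 0 y = y := by
  funext j
  rw [mulP, G.bet_zero_left, Pi.zero_apply, zero_add, add_zero]

theorem mulP_zero_right (x : Fin N → R) : mulP G.bet x 0 = x := by
  funext j
  rw [mulP, G.bet_zero_right, Pi.zero_apply, add_zero, add_zero]

theorem mulP_assoc (x y z : Fin N → R) :
    mulP G.bet (mulP G.bet x y) z = mulP G.bet x (mulP G.bet y z) := by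
  set g : Fin 3 → Fin N → R := ![x, y, z] with hg
  set φ : MvPolynomial (Fin 3 × Fin N) k →ₐ[k] R := aeval fun q => g q.1 q.2 with hφ
  have h1 : ∀ a, (fun j => φ (gen3 k N a j)) = g a := by
    intro a
    funext j
    rw [gen3, hφ, aeval_X]
  have h2 := congrArg (fun f : Fin N → MvPolynomial (Fin 3 × Fin N) k => fun j => φ (f j)) G.assoc
  rw [map_mulP, map_mulP, map_mulP, map_mulP, h1, h1, h1] at h2
  simpa [hg] using h2

/-- One step of the recursion for the inverse. -/
noncomputable def invStep (x y : Fin N → R) : Fin N → R :=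
  fun j => -x j - aeval (Sum.elim x y) (G.bet j)

/-- The inverse. -/
noncomputable def invP (x : Fin N → R) : Fin N → R := (G.invStep x)^[N] 0

theorem invStep_stable (x : Fin N → R) (n : ℕ) (j : Fin N) (hj : (j : ℕ) < n) :
    (G.invStep x)^[n + 1] 0 j = (G.invStep x)^[n] 0 j := by
  induction n generalizing j with
  | zero => omega
  | succ n ih =>
    have h1 : ∀ m, (G.invStep x)^[m + 1] 0 j = G.invStep x ((G.invStep x)^[m] 0) j := fun m => by
      rw [Function.iterate_succ_apply']
    rw [h1, h1 n, invStep, invStep]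
    congr 1
    refine G.bet_congr (fun _ _ => rfl) fun i hi => ih i ?_
    have : (i : ℕ) < j := hi
    omega

theorem invP_spec (x : Fin N → R) (j : Fin N) :
    G.invP x j = -x j - aeval (Sum.elim x (G.invP x)) (G.bet j) := by
  have h := G.invStep_stable x N j j.2
  rw [Function.iterate_succ_apply'] at h
  exact h.symm

theorem mulP_invP (x : Fin N → R) : mulP G.bet x (G.invP x) = 0 := by
  funext j
  rw [mulP, G.invP_spec x j, Pi.zero_apply]
  ring

theorem map_invP (φ : R →ₐ[k] R') (x : Fin N → R) :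
    (fun j => φ (G.invP x j)) = G.invP fun j => φ (x j) := by
  have h : ∀ n, (fun j => φ ((G.invStep x)^[n] 0 j)) =
      (G.invStep fun j => φ (x j))^[n] 0 := by
    intro n
    induction n with
    | zero =>
      funext j
      simp
    | succ n ih =>
      rw [Function.iterate_succ_apply', Function.iterate_succ_apply', ← ih]
      funext j
      simp only [invStep, map_sub, map_neg]
      congr 1
      have h1 : φ (aeval (Sum.elim x ((G.invStep x)^[n] 0)) (G.bet j)) =
          aeval (φ ∘ Sum.elim x ((G.invStep x)^[n] 0)) (G.bet j) := by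
        rw [← AlgHom.comp_apply, comp_aeval]
        rfl
      rw [h1, Sum.comp_elim]
      rfl
  exact h N

namespace Pt

noncomputable instance : Mul (G.Pt R) := ⟨fun x y => ⟨mulP G.bet x.co y.co⟩⟩

instance : One (G.Pt R) := ⟨⟨0⟩⟩

noncomputable instance : Inv (G.Pt R) := ⟨fun x => ⟨G.invP x.co⟩⟩

noncomputable instance : Group (G.Pt R) :=
  Group.ofRightAxioms (fun x y z => Pt.ext (G.mulP_assoc x.co y.co z.co))
    (fun x => Pt.ext (G.mulP_zero_right x.co)) (fun x => Pt.ext (G.mulP_invP x.co))

variable {G}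

theorem co_mul (x y : G.Pt R) : (x * y).co = mulP G.bet x.co y.co := rfl

theorem co_mul_apply (x y : G.Pt R) (j : Fin N) :
    (x * y).co j = x.co j + y.co j + aeval (Sum.elim x.co y.co) (G.bet j) := rfl

@[simp] theorem co_one : (1 : G.Pt R).co = 0 := rfl

theorem co_inv (x : G.Pt R) : (x⁻¹).co = G.invP x.co := rfl

end Pt

/-- Functoriality. -/
noncomputable def map (φ : R →ₐ[k] R') : G.Pt R →* G.Pt R' where
  toFun x := ⟨fun j => φ (x.co j)⟩
  map_one' := Pt.ext (funext fun _ => map_zero φ)
  map_mul' x y := Pt.ext (map_mulP G.bet φ x.co y.co)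

@[simp] theorem map_co (φ : R →ₐ[k] R') (x : G.Pt R) (j : Fin N) :
    (G.map φ x).co j = φ (x.co j) := rfl

/-- The inclusion of the `k`-points. -/
noncomputable def incl (R : Type w) [CommRing R] [Algebra k R] : G.Pt k →* G.Pt R :=
  G.map (Algebra.ofId k R)

@[simp] theorem incl_co (x : G.Pt k) (j : Fin N) :
    (G.incl R x).co j = algebraMap k R (x.co j) := rfl

/-! ### The subgroups `V j` -/

/-- Equality of the first `j` coordinates. -/
def Ag {G : Law k N} (j : ℕ) (x y : G.Pt R) : Prop := ∀ i : Fin N, (i : ℕ) < j → x.co i = y.co i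

namespace Ag

variable {G} {j : ℕ} {x y z x' y' : G.Pt R}

theorem refl : Ag j x x := fun _ _ => rfl

theorem symm (h : Ag j x y) : Ag j y x := fun i hi => (h i hi).symm

theorem trans (h : Ag j x y) (h' : Ag j y z) : Ag j x z := fun i hi => (h i hi).trans (h' i hi)

theorem mul (h : Ag j x x') (h' : Ag j y y') : Ag j (x * y) (x' * y') := by
  intro i hi
  rw [Pt.co_mul_apply, Pt.co_mul_apply, h i hi, h' i hi]
  congr 1
  refine G.bet_congr (fun a ha => h a ?_) fun a ha => h' a ?_
  · have : (a : ℕ) < i := ha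
    omega
  · have : (a : ℕ) < i := ha
    omega

theorem inv (h : Ag j x y) : Ag j x⁻¹ y⁻¹ := by
  have h1 : Ag j (x⁻¹ * (y * y⁻¹)) (x⁻¹ * (x * y⁻¹)) := refl.mul (h.symm.mul refl)
  rwa [mul_inv_cancel, mul_one, inv_mul_cancel_left] at h1

theorem mono {i : ℕ} (h : Ag j x y) (hij : i ≤ j) : Ag i x y :=
  fun a ha => h a (lt_of_lt_of_le ha hij)

end Ag

/-- The points with the first `j` coordinates `0`. -/
noncomputable def V (R : Type w) [CommRing R] [Algebra k R] (j : ℕ) : Subgroup (G.Pt R) where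
  carrier := {x | Ag j x 1}
  mul_mem' {x y} hx hy := by
    have h := Ag.mul hx hy
    rwa [mul_one] at h
  one_mem' := Ag.refl
  inv_mem' {x} hx := by
    have h := Ag.inv hx
    rwa [inv_one] at h

variable {G}

theorem mem_V {j : ℕ} {x : G.Pt R} : x ∈ G.V R j ↔ ∀ i : Fin N, (i : ℕ) < j → x.co i = 0 :=
  Iff.rfl

theorem mem_V_ag {j : ℕ} {x y : G.Pt R} : x * y⁻¹ ∈ G.V R j ↔ Ag j x y := by
  constructor
  · intro h
    have h1 : Ag j (x * y⁻¹ * y) (1 * y) := Ag.mul h Ag.refl
    rwa [inv_mul_cancel_right, one_mul] at h1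
  · intro h
    have h1 : Ag j (x * y⁻¹) (y * y⁻¹) := h.mul Ag.refl
    rwa [mul_inv_cancel] at h1

instance V_normal (j : ℕ) : (G.V R j).Normal where
  conj_mem x hx g := by
    have h1 : Ag j (g * x * g⁻¹) (g * 1 * g⁻¹) := (Ag.refl.mul hx).mul Ag.refl
    rwa [mul_one, mul_inv_cancel] at h1

theorem V_anti {i j : ℕ} (h : i ≤ j) : G.V R j ≤ G.V R i := fun _ hx => Ag.mono hx h

theorem V_zero : G.V R 0 = ⊤ := by
  refine eq_top_iff.2 fun x _ => ?_
  intro i hi
  omega

theorem V_top {j : ℕ} (h : N ≤ j) : G.V R j = ⊥ := by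
  refine eq_bot_iff.2 fun x hx => ?_
  refine Subgroup.mem_bot.2 (Pt.ext (funext fun i => ?_))
  exact hx i (by omega)

/-- The coordinates up to `j` of a product with an element of `V j`. -/
theorem co_mul_V {j : ℕ} (x : G.Pt R) {y : G.Pt R} (hy : y ∈ G.V R j) {i : Fin N}
    (hi : (i : ℕ) ≤ j) : (x * y).co i = x.co i + y.co i := by
  rw [Pt.co_mul_apply, G.bet_congr (x' := x.co) (y' := 0) (fun _ _ => rfl) fun a ha => ?_,
    G.bet_zero_right, add_zero]
  have : (a : ℕ) < i := ha
  exact hy a (by omega)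

theorem co_V_mul {j : ℕ} (x : G.Pt R) {y : G.Pt R} (hy : y ∈ G.V R j) {i : Fin N}
    (hi : (i : ℕ) ≤ j) : (y * x).co i = y.co i + x.co i := by
  rw [Pt.co_mul_apply, G.bet_congr (x' := 0) (y' := x.co) (fun a ha => ?_) fun _ _ => rfl,
    G.bet_zero_left, add_zero]
  have : (a : ℕ) < i := ha
  exact hy a (by omega)

open scoped commutatorElement in
theorem comm_mem_V {j : ℕ} (x : G.Pt R) {y : G.Pt R} (hy : y ∈ G.V R j) :
    ⁅x, y⁆ ∈ G.V R (j + 1) := by
  rw [commutatorElement_def, show x * y * x⁻¹ * y⁻¹ = x * y * (y * x)⁻¹ by group]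
  refine mem_V_ag.2 fun i hi => ?_
  rw [co_mul_V x hy (by omega), co_V_mul x hy (by omega), add_comm]

theorem co_pow_V {j : ℕ} {y : G.Pt R} (hy : y ∈ G.V R j) {i : Fin N} (hi : (i : ℕ) ≤ j)
    (n : ℕ) : (y ^ n).co i = n * y.co i := by
  induction n with
  | zero => simp
  | succ n ih =>
    rw [pow_succ, co_mul_V _ hy hi, ih]
    push_cast
    ring

theorem pow_mem_V (p : ℕ) [CharP R p] {j : ℕ} {y : G.Pt R} (hy : y ∈ G.V R j) :
    y ^ p ∈ G.V R (j + 1) := by
  intro i hi
  rw [co_pow_V hy (by omega), CharP.cast_eq_zero, zero_mul]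
  rfl

/-! ### Polynomials of the product and of the inverse -/

variable (G)

/-- The polynomials of the inverse. -/
noncomputable def invp : Fin N → MvPolynomial (Fin N) k := G.invP X

theorem aeval_invp (x : G.Pt R) (j : Fin N) : aeval x.co (G.invp j) = (x⁻¹).co j := by
  have h := congrFun (G.map_invP (aeval x.co : MvPolynomial (Fin N) k →ₐ[k] R) X) j
  simp only [aeval_X] at h
  exact h

/-- The polynomials of the product. -/
noncomputable def mulp (j : Fin N) : MvPolynomial (Fin N ⊕ Fin N) k :=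
  X (Sum.inl j) + X (Sum.inr j) + G.bet j

theorem aeval_mulp (x y : G.Pt R) (j : Fin N) :
    aeval (Sum.elim x.co y.co) (G.mulp j) = (x * y).co j := by
  rw [mulp, map_add, map_add, aeval_X, aeval_X]
  rfl

/-! ### Characters -/

/-- The additive polynomial functions on the `k`-points. -/
def IsChi (χ : MvPolynomial (Fin N) k) : Prop :=
  ∀ x y : G.Pt k, eval (x * y).co χ = eval x.co χ + eval y.co χ

variable {G}

theorem aeval_comp_mulp (x y : G.Pt R) (χ : MvPolynomial (Fin N) k) :
    aeval (Sum.elim x.co y.co) (aeval G.mulp χ) = aeval (x * y).co χ := by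
  rw [← AlgHom.comp_apply, comp_aeval]
  congr 2
  funext j
  exact G.aeval_mulp x y j

theorem eval_comp_mulp (x y : G.Pt k) (χ : MvPolynomial (Fin N) k) :
    eval (Sum.elim x.co y.co) (aeval G.mulp χ) = eval (x * y).co χ := by
  have h := aeval_comp_mulp x y χ
  rwa [aeval_eq_eval, aeval_eq_eval] at h

namespace IsChi

variable {χ ψ : MvPolynomial (Fin N) k}

theorem poly [IsDomain k] [Infinite k] (h : G.IsChi χ) :
    aeval G.mulp χ = rename Sum.inl χ + rename Sum.inr χ := by
  refine MvPolynomial.funext fun z => ?_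
  have h1 : z = Sum.elim (⟨fun i => z (Sum.inl i)⟩ : G.Pt k).co
      (⟨fun i => z (Sum.inr i)⟩ : G.Pt k).co := by
    funext s
    rcases s with i | i <;> rfl
  rw [h1, eval_comp_mulp, h, map_add, eval_rename, eval_rename]
  rfl

/-- Characters are additive on the points with values in any algebra. -/
theorem pt [IsDomain k] [Infinite k] (h : G.IsChi χ) (x y : G.Pt R) :
    aeval (x * y).co χ = aeval x.co χ + aeval y.co χ := by
  rw [← aeval_comp_mulp, h.poly, map_add, aeval_rename, aeval_rename]
  rfl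

theorem add (h : G.IsChi χ) (h' : G.IsChi ψ) : G.IsChi (χ + ψ) := fun x y => by
  rw [map_add, map_add, map_add, h, h']
  ring

theorem neg (h : G.IsChi χ) : G.IsChi (-χ) := fun x y => by
  rw [map_neg, map_neg, map_neg, h]
  ring

theorem smul (c : k) (h : G.IsChi χ) : G.IsChi (C c * χ) := fun x y => by
  simp only [map_mul, eval_C, h x y]
  ring

theorem zero : G.IsChi (0 : MvPolynomial (Fin N) k) := fun x y => by
  simp

theorem one (h : G.IsChi χ) : eval (1 : G.Pt k).co χ = 0 := by
  have h1 := h 1 1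
  rw [mul_one] at h1
  exact left_eq_add.1 h1

theorem inv (h : G.IsChi χ) (x : G.Pt k) : eval x⁻¹.co χ = -eval x.co χ := by
  have h1 := h x x⁻¹
  rw [mul_inv_cancel, h.one] at h1
  exact eq_neg_of_add_eq_zero_right h1.symm

end IsChi

/-! ### The law of `V b` -/

end Law

/-- Extension by `0`. -/
def ext0 (N b : ℕ) {R : Type w} [Zero R] (z : Fin (N - b) → R) : Fin N → R :=
  fun a => if h : b ≤ a then z ⟨a - b, by omega⟩ else 0

/-- The shift of the indices by `b`. -/
def shf (N b : ℕ) (i : Fin (N - b)) : Fin N := ⟨b + i, by omega⟩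

section Ext

variable {N b : ℕ} {R : Type w} {R' : Type w'}

@[simp] theorem ext0_shf [Zero R] (z : Fin (N - b) → R) (i : Fin (N - b)) :
    ext0 N b z (shf N b i) = z i := by
  have h : b ≤ ((shf N b i : Fin N) : ℕ) := Nat.le_add_right _ _
  rw [ext0, dif_pos h]
  congr 1
  exact Fin.ext (Nat.add_sub_cancel_left b i)

theorem ext0_lt [Zero R] (z : Fin (N - b) → R) {a : Fin N} (h : (a : ℕ) < b) :
    ext0 N b z a = 0 := dif_neg (by omega)

theorem ext0_zero [Zero R] : ext0 N b (0 : Fin (N - b) → R) = 0 := by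
  funext a
  rw [ext0]
  split_ifs <;> rfl

theorem ext0_comp [Zero R] [Zero R'] (φ : R → R') (hφ : φ 0 = 0) (z : Fin (N - b) → R) :
    (fun a => φ (ext0 N b z a)) = ext0 N b fun i => φ (z i) := by
  funext a
  simp only [ext0]
  split_ifs
  · rfl
  · exact hφ

theorem exists_shf {a : Fin N} (h : b ≤ a) : ∃ i : Fin (N - b), shf N b i = a :=
  ⟨⟨a - b, by omega⟩, Fin.ext (by simp only [shf]; omega)⟩

end Ext

namespace Law

variable {k : Type u} [CommRing k] {N : ℕ} (G : Law k N) (b : ℕ) {R : Type w} [CommRing R]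
  [Algebra k R]

/-- The deviation of the law of `V b`. -/
noncomputable def sbet (i : Fin (N - b)) : MvPolynomial (Fin (N - b) ⊕ Fin (N - b)) k :=
  aeval (Sum.elim (ext0 N b fun j => X (Sum.inl j)) (ext0 N b fun j => X (Sum.inr j)))
    (G.bet (shf N b i))

theorem aeval_sbet (x y : Fin (N - b) → R) (i : Fin (N - b)) :
    aeval (Sum.elim x y) (G.sbet b i) =
      aeval (Sum.elim (ext0 N b x) (ext0 N b y)) (G.bet (shf N b i)) := by
  rw [sbet, ← AlgHom.comp_apply, comp_aeval]
  congr 2
  funext s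
  rcases s with a | a
  · have h := congrFun (ext0_comp (N := N) (b := b)
      (aeval (R := k) (Sum.elim x y) : MvPolynomial (Fin (N - b) ⊕ Fin (N - b)) k → R)
      (map_zero _) fun j => X (Sum.inl j)) a
    simp only [aeval_X, Sum.elim_inl] at h
    exact h
  · have h := congrFun (ext0_comp (N := N) (b := b)
      (aeval (R := k) (Sum.elim x y) : MvPolynomial (Fin (N - b) ⊕ Fin (N - b)) k → R)
      (map_zero _) fun j => X (Sum.inr j)) a
    simp only [aeval_X, Sum.elim_inr] at h
    exact h

theorem mulP_sbet (x y : Fin (N - b) → R) (i : Fin (N - b)) :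
    mulP (G.sbet b) x y i = mulP G.bet (ext0 N b x) (ext0 N b y) (shf N b i) := by
  rw [mulP, mulP, aeval_sbet, ext0_shf, ext0_shf]

theorem ext0_mulP (x y : Fin (N - b) → R) :
    ext0 N b (mulP (G.sbet b) x y) = mulP G.bet (ext0 N b x) (ext0 N b y) := by
  funext a
  rcases lt_or_ge (a : ℕ) b with h | h
  · rw [ext0_lt _ h, mulP, ext0_lt _ h, ext0_lt _ h, G.bet_congr (x' := 0) (y' := ext0 N b y)
      (fun i hi => ?_) fun _ _ => rfl, G.bet_zero_left, add_zero, add_zero]
    have : (i : ℕ) < a := hi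
    rw [ext0_lt _ (by omega)]
    rfl
  · obtain ⟨i, rfl⟩ := exists_shf h
    rw [ext0_shf, mulP_sbet]

/-- **The law of `V b`.** -/
noncomputable def sub : Law k (N - b) where
  bet := G.sbet b
  tri j s hs := by
    classical
    obtain ⟨t, ht, hst⟩ := mem_vars_bind₁ _ _ hs
    have h1 := G.tri _ t ht
    have h2 : ∀ (c : Fin N) (g : Fin (N - b) → Fin (N - b) ⊕ Fin (N - b)),
        (∀ i, Sum.elim id id (g i) = i) → c < shf N b j →
        s ∈ (ext0 N b (fun i => (X (g i) : MvPolynomial (Fin (N - b) ⊕ Fin (N - b)) k)) c).vars →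
        Sum.elim id id s < j := by
      intro c g hg hc hs
      rcases lt_or_ge (c : ℕ) b with h | h
      · rw [ext0_lt _ h] at hs
        simp at hs
      · obtain ⟨i, rfl⟩ := exists_shf h
        rw [ext0_shf] at hs
        have h3 : s ∈ ({g i} : Finset _) := by
          by_cases hk : Nontrivial k
          · rwa [vars_X] at hs
          · rw [not_nontrivial_iff_subsingleton] at hk
            have : (X (g i) : MvPolynomial (Fin (N - b) ⊕ Fin (N - b)) k) = 0 :=
              Subsingleton.elim _ _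
            rw [this] at hs
            simp at hs
        rw [Finset.mem_singleton.1 h3, hg]
        have h4 : (b : ℕ) + i < b + j := hc
        exact Fin.lt_def.2 (by omega)
    rcases t with c | c
    · exact h2 c Sum.inl (fun _ => rfl) h1 hst
    · exact h2 c Sum.inr (fun _ => rfl) h1 hst
  zl i := by
    rw [aeval_sbet, ext0_zero, G.bet_zero_left]
  zr i := by
    rw [aeval_sbet, ext0_zero, G.bet_zero_right]
  assoc := by
    funext i
    rw [mulP_sbet, mulP_sbet, ext0_mulP, ext0_mulP, G.mulP_assoc]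

/-- The embedding of the points of `V b`. -/
noncomputable def emb (R : Type w) [CommRing R] [Algebra k R] : (G.sub b).Pt R →* G.Pt R where
  toFun x := ⟨ext0 N b x.co⟩
  map_one' := Pt.ext ext0_zero
  map_mul' x y := Pt.ext (G.ext0_mulP b x.co y.co)

@[simp] theorem emb_co (x : (G.sub b).Pt R) : (G.emb b R x).co = ext0 N b x.co := rfl

theorem emb_mem (x : (G.sub b).Pt R) : G.emb b R x ∈ G.V R b := fun _ hi => ext0_lt _ hi

theorem exists_emb {x : G.Pt R} (hx : x ∈ G.V R b) : ∃ y, G.emb b R y = x := by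
  refine ⟨⟨fun i => x.co (shf N b i)⟩, Pt.ext (funext fun a => ?_)⟩
  rw [emb_co]
  rcases lt_or_ge (a : ℕ) b with h | h
  · rw [ext0_lt _ h]
    exact (hx a h).symm
  · obtain ⟨i, rfl⟩ := exists_shf h
    rw [ext0_shf]

end Law

end Pool.Agent.TWGS
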