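import Pool.Agent.Lib.TWGS.Law

/-!
# Polynomial functions and polynomial maps to the points of a law

* `RPol`: polynomial functions on `R ^ σ`;
* `Law.PM`: polynomial maps to `G.Pt R`.
-/

set_option autoImplicit false

open MvPolynomial
open scoped commutatorElement

namespace Pool.Agent.TWGS

/-! ### Polynomial functions -/

section Pol

variable {R : Type*} [CommRing R] {σ τ : Type*}

/-- Polynomial functions on `R ^ σ`. -/
def RPol (F : (σ → R) → R) : Prop := ∃ P : MvPolynomial σ R, ∀ x, eval x P = F x

namespace RPol

variable {F G : (σ → R) → R}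

theorem const (c : R) : RPol fun _ : σ → R => c := ⟨C c, fun _ => eval_C c⟩

theorem proj (i : σ) : RPol fun x : σ → R => x i := ⟨X i, fun _ => eval_X i⟩

theorem add (h : RPol F) (h' : RPol G) : RPol fun x => F x + G x := by
  obtain ⟨P, hP⟩ := h
  obtain ⟨Q, hQ⟩ := h'
  exact ⟨P + Q, fun x => by rw [map_add, hP, hQ]⟩

theorem mul (h : RPol F) (h' : RPol G) : RPol fun x => F x * G x := by
  obtain ⟨P, hP⟩ := h
  obtain ⟨Q, hQ⟩ := h'
  exact ⟨P * Q, fun x => by rw [map_mul, hP, hQ]⟩

theorem neg (h : RPol F) : RPol fun x => -F x := by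
  obtain ⟨P, hP⟩ := h
  exact ⟨-P, fun x => by rw [map_neg, hP]⟩

theorem sub (h : RPol F) (h' : RPol G) : RPol fun x => F x - G x := by
  obtain ⟨P, hP⟩ := h
  obtain ⟨Q, hQ⟩ := h'
  exact ⟨P - Q, fun x => by rw [map_sub, hP, hQ]⟩

/-- A polynomial with coefficients in a ring `k` at polynomial functions. -/
theorem aeval_comp {k : Type*} [CommRing k] [Algebra k R] (P : MvPolynomial τ k)
    {u : (σ → R) → τ → R} (hu : ∀ i, RPol fun x => u x i) : RPol fun x => aeval (u x) P := by
  choose Q hQ using hu
  induction P using MvPolynomial.induction_on with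
  | C c =>
    have h1 := RPol.const (σ := σ) (algebraMap k R c)
    simpa only [aeval_C] using h1
  | add P P' hP hP' =>
    have h1 := hP.add hP'
    simpa only [map_add] using h1
  | mul_X P i hP =>
    have h1 := hP.mul ⟨Q i, hQ i⟩
    simpa only [map_mul, aeval_X] using h1

theorem comp {F : (τ → R) → R} (h : RPol F) {u : (σ → R) → τ → R}
    (hu : ∀ i, RPol fun x => u x i) : RPol fun x => F (u x) := by
  obtain ⟨P, hP⟩ := h
  have h1 := RPol.aeval_comp P hu
  have h2 : (fun x => aeval (u x) P) = fun x => F (u x) := by
    funext x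
    rw [← hP]
    rfl
  rwa [h2] at h1

theorem sum {ι : Type*} (s : Finset ι) {F : ι → (σ → R) → R} (h : ∀ i ∈ s, RPol (F i)) :
    RPol fun x => ∑ i ∈ s, F i x := by
  classical
  induction s using Finset.induction_on with
  | empty =>
    have h1 := RPol.const (σ := σ) (0 : R)
    simpa only [Finset.sum_empty] using h1
  | insert a s ha ih =>
    have h1 := (h a (Finset.mem_insert_self a s)).add
      (ih fun i hi => h i (Finset.mem_insert_of_mem hi))
    simpa only [Finset.sum_insert ha] using h1

end RPol

end Pol

/-! ### Maps to the points -/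

variable {k : Type*} [CommRing k] {N : ℕ} {G : Law k N} {R : Type*} [CommRing R] [Algebra k R]

namespace Law

/-! ### Polynomial maps to the points -/

/-- Polynomial maps. -/
def PM {σ : Type*} (F : (σ → R) → G.Pt R) : Prop := ∀ j, RPol fun x => (F x).co j

namespace PM

variable {σ τ : Type*} {F H : (σ → R) → G.Pt R}

omit [Algebra k R] in
theorem const (a : G.Pt R) : PM fun _ : σ → R => a := fun _ => RPol.const _

omit [Algebra k R] in
theorem id : PM fun x : Fin N → R => (⟨x⟩ : G.Pt R) := fun j => RPol.proj j

theorem mul (h : PM F) (h' : PM H) : PM fun x => F x * H x := fun j => by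
  have h1 := RPol.aeval_comp (G.mulp j) (u := fun x => Sum.elim (F x).co (H x).co) (fun i => by
    rcases i with i | i
    · exact h i
    · exact h' i)
  simpa only [G.aeval_mulp] using h1

theorem inv (h : PM F) : PM fun x => (F x)⁻¹ := fun j => by
  have h1 := RPol.aeval_comp (G.invp j) (u := fun x => (F x).co) h
  simpa only [G.aeval_invp] using h1

theorem pow (h : PM F) (n : ℕ) : PM fun x => F x ^ n := by
  induction n with
  | zero =>
    have h1 := PM.const (σ := σ) (1 : G.Pt R)
    simpa only [pow_zero] using h1
  | succ n ih =>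
    have h1 := ih.mul h
    simpa only [pow_succ] using h1

theorem comm (h : PM F) (h' : PM H) : PM fun x => ⁅F x, H x⁆ := by
  have h1 := ((h.mul h').mul h.inv).mul h'.inv
  simpa only [commutatorElement_def] using h1

omit [Algebra k R] in
theorem comp {F : (τ → R) → G.Pt R} (h : PM F) {u : (σ → R) → τ → R}
    (hu : ∀ i, RPol fun x => u x i) : PM fun x => F (u x) := fun j => (h j).comp hu

/-- A polynomial function at a polynomial map. -/
theorem rpol (h : PM F) (f : MvPolynomial (Fin N) k) : RPol fun x => aeval (F x).co f :=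
  RPol.aeval_comp f h

end PM

end Law

end Pool.Agent.TWGS
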