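import Pool.Agent.Lib.TWGS.Pol
import Pool.Agent.Lib.TWGS.Irr

/-!
# TEXT A, group side, A5: the descending series and the central subgroup

`G` a triangular law over an infinite field `k`, `b 0 = 0 ≤ b 1 ≤ .. ≤ b m`.

* `Law.RP S R`: the `R`-points of a set of `k`-points;
* `Law.W`: the filtration; `W i ≥ V (b i)` (`i ≤ m`), `[W a, W c] ≤ W (a + c + m)`,
  `(W a)^p ≤ W (a + m)`;
* `Law.exists_Z`: an irreducible infinite central subgroup fixed by all polynomial homomorphisms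
  which are unipotent on the characters.
-/

set_option autoImplicit false

open MvPolynomial
open scoped commutatorElement

namespace Pool.Agent.TWGS

universe u w

/-- Commutators modulo small factors. -/
theorem comm_mul_mul {Q : Type*} [Group Q] {a b c d : Q} (h1 : Commute a d) (h2 : Commute a c)
    (h3 : Commute c b) (h4 : Commute a ⁅b, d⁆) (h5 : Commute c ⁅b, d⁆) :
    ⁅a * b, c * d⁆ = ⁅b, d⁆ := by
  have e1 : ⁅a * b, c * d⁆ = a * (b * c) * d * b⁻¹ * (a⁻¹ * d⁻¹) * c⁻¹ := by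
    rw [commutatorElement_def]
    group
  have e2 : a * (c * b) * d * b⁻¹ * (d⁻¹ * a⁻¹) * c⁻¹ = a * (c * ⁅b, d⁆) * (a⁻¹ * c⁻¹) := by
    rw [commutatorElement_def]
    group
  have e3 : a * (⁅b, d⁆ * c) * (a⁻¹ * c⁻¹) = (a * ⁅b, d⁆) * (c * (a⁻¹ * c⁻¹)) := by
    group
  have e4 : (⁅b, d⁆ * a) * (c * (c⁻¹ * a⁻¹)) = ⁅b, d⁆ := by
    group
  rw [e1, ← h3.eq, (h1.inv_inv).eq, e2, h5.eq, e3, h4.eq, (h2.inv_inv).eq, e4]

namespace Law

variable {k : Type u} [Field k] {N : ℕ} {G : Law k N} {R : Type w} [CommRing R] [Algebra k R]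

/-! ### `R`-points -/

/-- The `R`-points of a set of `k`-points. -/
def RP (S : Set (G.Pt k)) (R : Type w) [CommRing R] [Algebra k R] : Set (G.Pt R) :=
  {x | ∀ f : MvPolynomial (Fin N) k, (∀ s ∈ S, aeval s.co f = 0) → aeval x.co f = 0}

theorem rp_zero {S : Set (G.Pt k)} {F : (Fin N → R) → R} (hF : RPol F)
    (h : ∀ s ∈ S, F (G.incl R s).co = 0) {x : G.Pt R} (hx : x ∈ RP S R) : F x.co = 0 := by
  obtain ⟨P, hP⟩ := hF
  have h1 := pts_zero (k := k) (R := R) (R' := R) (S := {x : Fin N → k | (⟨x⟩ : G.Pt k) ∈ S})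
    (F := P) (fun s hs => (hP _).trans (h ⟨s⟩ hs)) (x := x.co)
    (fun f hf => hx f fun s hs => hf s.co hs)
  rw [← hP]
  exact h1

theorem rp_map {S T : Set (G.Pt k)} {F : G.Pt R → G.Pt R} (hF : PM fun x => F ⟨x⟩)
    (h : ∀ s ∈ S, F (G.incl R s) ∈ RP T R) {x : G.Pt R} (hx : x ∈ RP S R) : F x ∈ RP T R :=
  fun f hf => rp_zero (F := fun x => aeval (F ⟨x⟩).co f) (hF.rpol f) (fun s hs => h s hs f hf) hx

theorem rp_map2 {S T U : Set (G.Pt k)} {F : G.Pt R → G.Pt R → G.Pt R}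
    (h1 : ∀ y, PM fun x => F ⟨x⟩ y) (h2 : ∀ x, PM fun y => F x ⟨y⟩)
    (h : ∀ s ∈ S, ∀ t ∈ T, F (G.incl R s) (G.incl R t) ∈ RP U R) {x y : G.Pt R}
    (hx : x ∈ RP S R) (hy : y ∈ RP T R) : F x y ∈ RP U R :=
  rp_map (F := fun x => F x y) (h1 y) (fun s hs => rp_map (F := fun y => F (G.incl R s) y) (h2 _)
    (fun t ht => h s hs t ht) hy) hx

theorem rp_mono {S T : Set (G.Pt k)} (h : S ⊆ T) : RP S R ⊆ RP T R := fun _ hx f hf =>
  hx f fun s hs => hf s (h hs)

theorem incl_mem_rp {S : Set (G.Pt k)} {s : G.Pt k} (hs : s ∈ RP S k) : G.incl R s ∈ RP S R := by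
  intro f hf
  have h1 := congrArg (algebraMap k R) (hs f hf)
  rw [map_zero] at h1
  rw [← h1]
  exact aev_map s.co f

theorem mem_rp {S : Set (G.Pt k)} {s : G.Pt k} (hs : s ∈ S) : s ∈ RP S k := fun _ hf => hf s hs

/-- The `R`-points of `{1}`. -/
theorem eq_one_of_rp {S : Set (G.Pt k)} (hS : ∀ s ∈ S, s = 1) {x : G.Pt R} (hx : x ∈ RP S R) :
    x = 1 := by
  refine Pt.ext (funext fun j => ?_)
  have h1 := hx (X j) fun s hs => by
    rw [hS s hs, aeval_X]
    rfl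
  rw [aeval_X] at h1
  exact h1

/-- The `R`-points of `V n`. -/
theorem V_le_rp [Infinite k] {n : ℕ} {x : G.Pt R} (hx : x ∈ G.V R n) :
    x ∈ RP (G.V k n : Set (G.Pt k)) R := by
  classical
  intro f hf
  set cut : Fin N → MvPolynomial (Fin N) k := fun i => if (i : ℕ) < n then 0 else X i with hcut
  have h1 : aeval cut f = 0 := by
    refine MvPolynomial.funext fun z => ?_
    have h2 := hf ⟨fun i => eval z (cut i)⟩ fun i hi => by
      change eval z (cut i) = 0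
      rw [hcut]
      simp [hi]
    rw [map_zero]
    have h3 := comp_aeval_apply (f := cut) (aeval z : MvPolynomial (Fin N) k →ₐ[k] k) f
    exact h3.trans h2
  have h2 := congrArg (aeval x.co) h1
  rw [comp_aeval_apply, map_zero] at h2
  rw [← h2]
  congr 2
  funext i
  by_cases hi : (i : ℕ) < n
  · rw [hcut]
    simp [hi, mem_V.1 hx i hi]
  · rw [hcut]
    simp [hi]

/-! ### The filtration -/

/-- The filtration. -/
inductive W (G : Law k N) (p m : ℕ) (b : ℕ → ℕ) : ℕ → G.Pt k → Prop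
  | base {i : ℕ} {x : G.Pt k} (hi : i ≤ m) (hx : x ∈ G.V k (b i)) : W G p m b i x
  | one (n : ℕ) : W G p m b n 1
  | mul {n : ℕ} {x y : G.Pt k} (hx : W G p m b n x) (hy : W G p m b n y) : W G p m b n (x * y)
  | inv {n : ℕ} {x : G.Pt k} (hx : W G p m b n x) : W G p m b n x⁻¹
  | comm {a c : ℕ} {x y : G.Pt k} (hx : W G p m b a x) (hy : W G p m b c y) :
      W G p m b (a + c + m) ⁅x, y⁆
  | pow {a : ℕ} {x : G.Pt k} (hx : W G p m b a x) : W G p m b (a + m) (x ^ p)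
  | mono {n : ℕ} {x : G.Pt k} (hx : W G p m b (n + 1) x) : W G p m b n x

variable {p m : ℕ} {b : ℕ → ℕ}

theorem W.anti {n n' : ℕ} {x : G.Pt k} (hx : W G p m b n x) (h : n' ≤ n) : W G p m b n' x := by
  obtain ⟨d, rfl⟩ := Nat.exists_eq_add_of_le h
  clear h
  induction d with
  | zero => exact hx
  | succ d ih => exact ih hx.mono

theorem W.zero (hb : b 0 = 0) (x : G.Pt k) : W G p m b 0 x := W.base (Nat.zero_le m) (by
  rw [hb, V_zero]
  exact Subgroup.mem_top x)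

/-- The filtration ends. -/
theorem W.mem_V [CharP k p] (j : ℕ) : ∃ t, m < t ∧ ∀ n x, W G p m b n x → t ≤ n → x ∈ G.V k j := by
  induction j with
  | zero =>
    exact ⟨m + 1, Nat.lt_succ_self m, fun n x _ _ => by
      rw [V_zero]
      exact Subgroup.mem_top x⟩
  | succ j ih =>
    obtain ⟨t, ht, h⟩ := ih
    refine ⟨2 * t + m, by omega, fun n x hx => ?_⟩
    induction hx with
    | base hi _ => intro hn; omega
    | one n => exact fun _ => one_mem _
    | mul _ _ ihx ihy => exact fun hn => mul_mem (ihx hn) (ihy hn)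
    | inv _ ihx => exact fun hn => inv_mem (ihx hn)
    | @comm a c x y hx hy _ _ =>
      intro hn
      rcases le_or_gt t a with ha | ha
      · rw [← commutatorElement_inv]
        exact inv_mem (comm_mem_V _ (h a x hx ha))
      · exact comm_mem_V _ (h c y hy (by omega))
    | @pow a x hx _ => exact fun hn => pow_mem_V p (h a x hx (by omega))
    | mono _ ihx => exact fun hn => ihx (by omega)

/-- The subgroup of the `R`-points of `W n`. -/
noncomputable def RW (G : Law k N) (p m : ℕ) (b : ℕ → ℕ) (R : Type w) [CommRing R] [Algebra k R]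
    (n : ℕ) : Subgroup (G.Pt R) where
  carrier := RP {x | W G p m b n x} R
  one_mem' := by
    have h1 := incl_mem_rp (R := R) (mem_rp (S := {x | W G p m b n x}) (W.one n))
    rwa [map_one] at h1
  mul_mem' := fun {x y} hx hy => rp_map2 (F := fun x y => x * y)
    (fun y => PM.id.mul (PM.const y)) (fun x => (PM.const x).mul PM.id) (fun s hs t ht => by
      rw [← map_mul]
      exact incl_mem_rp (mem_rp (W.mul hs ht))) hx hy
  inv_mem' := fun {x} hx => rp_map (F := fun x => x⁻¹) PM.id.inv (fun s hs => by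
      rw [← map_inv]
      exact incl_mem_rp (mem_rp (W.inv hs))) hx

theorem mem_RW {n : ℕ} {x : G.Pt R} : x ∈ RW G p m b R n ↔ x ∈ RP {x | W G p m b n x} R := Iff.rfl

theorem incl_mem_RW {n : ℕ} {x : G.Pt k} (hx : W G p m b n x) : G.incl R x ∈ RW G p m b R n :=
  incl_mem_rp (mem_rp hx)

theorem RW_anti {n n' : ℕ} (h : n' ≤ n) : RW G p m b R n ≤ RW G p m b R n' :=
  rp_mono fun _ hx => W.anti hx h

theorem RW_comm {a c : ℕ} {x y : G.Pt R} (hx : x ∈ RW G p m b R a) (hy : y ∈ RW G p m b R c) :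
    ⁅x, y⁆ ∈ RW G p m b R (a + c + m) :=
  rp_map2 (F := fun x y => ⁅x, y⁆) (fun y => PM.id.comm (PM.const y))
    (fun x => (PM.const x).comm PM.id) (fun s hs t ht => by
      rw [← map_commutatorElement]
      exact incl_mem_rp (mem_rp (W.comm hs ht))) hx hy

theorem RW_pow {a : ℕ} {x : G.Pt R} (hx : x ∈ RW G p m b R a) :
    x ^ p ∈ RW G p m b R (a + m) :=
  rp_map (F := fun x => x ^ p) (PM.id.pow p) (fun s hs => by
      rw [← map_pow]
      exact incl_mem_rp (mem_rp (W.pow hs))) hx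

theorem RW_zero [Infinite k] (hb : b 0 = 0) (x : G.Pt R) : x ∈ RW G p m b R 0 := by
  have h1 : x ∈ G.V R 0 := by
    rw [V_zero]
    exact Subgroup.mem_top x
  exact rp_mono (fun s _ => W.zero hb s) (V_le_rp h1)

theorem RW_normal [Infinite k] (hb : b 0 = 0) (n : ℕ) : (RW G p m b R n).Normal := ⟨fun x hx g => by
  have h1 : g * x * g⁻¹ = ⁅g, x⁆ * x := by
    rw [commutatorElement_def]
    group
  rw [h1]
  exact mul_mem (RW_anti (by omega) (RW_comm (RW_zero hb g) hx)) hx⟩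

/-! ### Irreducibility -/

/-- Irreducible sets of points. -/
def IrrP (S : Set (G.Pt k)) : Prop := S.Nonempty ∧ ∀ f g : MvPolynomial (Fin N) k,
  (∀ s ∈ S, eval s.co f * eval s.co g = 0) → (∀ s ∈ S, eval s.co f = 0) ∨ ∀ s ∈ S, eval s.co g = 0

theorem IrrP.irr {S : Set (G.Pt k)} (h : IrrP S) : Irr {x : Fin N → k | (⟨x⟩ : G.Pt k) ∈ S} := by
  obtain ⟨⟨s, hs⟩, h⟩ := h
  refine ⟨⟨s.co, hs⟩, fun f g hfg => ?_⟩
  rcases h f g fun s hs => hfg s.co hs with h1 | h1
  · exact Or.inl fun s hs => h1 ⟨s⟩ hs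
  · exact Or.inr fun s hs => h1 ⟨s⟩ hs

/-- Irreducible sets and polynomial functions. -/
theorem IrrP.or {S : Set (G.Pt k)} (h : IrrP S) {f g : (Fin N → k) → k} (hf : RPol f)
    (hg : RPol g) (hfg : ∀ s ∈ S, f s.co * g s.co = 0) :
    (∀ s ∈ S, f s.co = 0) ∨ ∀ s ∈ S, g s.co = 0 := by
  obtain ⟨P, hP⟩ := hf
  obtain ⟨Q, hQ⟩ := hg
  rcases h.2 P Q fun s hs => by rw [hP, hQ]; exact hfg s hs with h1 | h1
  · exact Or.inl fun s hs => by rw [← hP]; exact h1 s hs
  · exact Or.inr fun s hs => by rw [← hQ]; exact h1 s hs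

theorem irrP_one : IrrP ({1} : Set (G.Pt k)) := by
  refine ⟨⟨1, rfl⟩, fun f g h => ?_⟩
  rcases mul_eq_zero.1 (h 1 rfl) with h1 | h1
  · exact Or.inl fun s hs => by rw [Set.mem_singleton_iff.1 hs]; exact h1
  · exact Or.inr fun s hs => by rw [Set.mem_singleton_iff.1 hs]; exact h1

/-- Images of two irreducible sets. -/
theorem IrrP.image2 {S T : Set (G.Pt k)} (hS : IrrP S) (hT : IrrP T)
    {F : G.Pt k → G.Pt k → G.Pt k} (h1 : ∀ y, PM fun x => F ⟨x⟩ y)
    (h2 : ∀ x, PM fun y => F x ⟨y⟩) : IrrP (Set.image2 F S T) := by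
  refine ⟨hS.1.image2 hT.1, fun f g h => ?_⟩
  by_contra hno
  push Not at hno
  obtain ⟨⟨_, ⟨s₁, hs₁, t₁, ht₁, rfl⟩, hf⟩, _, ⟨s₂, hs₂, t₂, ht₂, rfl⟩, hg⟩ := hno
  have key : ∀ s ∈ S, eval (F s t₁).co f * eval (F s t₂).co g = 0 := by
    intro s hs
    rcases hT.or (f := fun y => eval (F s ⟨y⟩).co f) (g := fun y => eval (F s ⟨y⟩).co g)
      ((h2 s).rpol f) ((h2 s).rpol g) (fun t ht => h _ ⟨s, hs, t, ht, rfl⟩) with h3 | h3
    · rw [show eval (F s t₁).co f = 0 from h3 t₁ ht₁, zero_mul]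
    · rw [show eval (F s t₂).co g = 0 from h3 t₂ ht₂, mul_zero]
  rcases hS.or (f := fun x => eval (F ⟨x⟩ t₁).co f) (g := fun x => eval (F ⟨x⟩ t₂).co g)
    ((h1 t₁).rpol f) ((h1 t₂).rpol g) key with h3 | h3
  · exact hf (h3 s₁ hs₁)
  · exact hg (h3 s₂ hs₂)

theorem IrrP.image {S : Set (G.Pt k)} (hS : IrrP S) {F : G.Pt k → G.Pt k}
    (h1 : PM fun x => F ⟨x⟩) : IrrP (F '' S) := by
  refine ⟨hS.1.image F, fun f g h => ?_⟩
  rcases hS.or (f := fun x => eval (F ⟨x⟩).co f) (g := fun x => eval (F ⟨x⟩).co g)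
    (h1.rpol f) (h1.rpol g) (fun s hs => h _ ⟨s, hs, rfl⟩) with h3 | h3
  · exact Or.inl (by rintro _ ⟨s, hs, rfl⟩; exact h3 s hs)
  · exact Or.inr (by rintro _ ⟨s, hs, rfl⟩; exact h3 s hs)

theorem irrP_univ [Infinite k] : IrrP (Set.univ : Set (G.Pt k)) := by
  refine ⟨⟨1, trivial⟩, fun f g h => ?_⟩
  have h1 : f * g = 0 := by
    refine MvPolynomial.funext fun x => ?_
    rw [map_mul, map_zero]
    exact h ⟨x⟩ trivial
  rcases mul_eq_zero.1 h1 with h2 | h2
  · exact Or.inl fun s _ => by rw [h2, map_zero]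
  · exact Or.inr fun s _ => by rw [h2, map_zero]

theorem irrP_V [Infinite k] (n : ℕ) : IrrP (G.V k n : Set (G.Pt k)) := by
  have h1 := (irrP_univ (G := G)).image
    (F := fun x => (⟨fun i => if (i : ℕ) < n then 0 else x.co i⟩ : G.Pt k)) (fun i => by
      by_cases hi : (i : ℕ) < n
      · simpa [hi] using RPol.const (σ := Fin N) (0 : k)
      · simpa [hi] using RPol.proj (R := k) i)
  convert h1 using 1
  ext x
  constructor
  · intro hx
    refine ⟨x, trivial, Pt.ext (funext fun i => ?_)⟩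
    by_cases hi : (i : ℕ) < n
    · simp [hi, mem_V.1 hx i hi]
    · simp [hi]
  · rintro ⟨y, _, rfl⟩ i hi
    simp [hi]

/-- Every point of `W n` lies in an irreducible subset with `1`. -/
theorem W.exists_irr [Infinite k] {n : ℕ} {x : G.Pt k} (hx : W G p m b n x) :
    ∃ T : Set (G.Pt k), x ∈ T ∧ 1 ∈ T ∧ (∀ y ∈ T, W G p m b n y) ∧ IrrP T := by
  induction hx with
  | @base i x hi hx =>
    exact ⟨G.V k (b i), hx, one_mem _, fun y hy => W.base hi hy, irrP_V _⟩
  | one n => exact ⟨{1}, rfl, rfl, fun y hy => by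
      rw [Set.mem_singleton_iff.1 hy]
      exact W.one n, irrP_one⟩
  | mul _ _ ihx ihy =>
    obtain ⟨S, hS1, hS2, hS3, hS4⟩ := ihx
    obtain ⟨T, hT1, hT2, hT3, hT4⟩ := ihy
    refine ⟨Set.image2 (· * ·) S T, ⟨_, hS1, _, hT1, rfl⟩, ⟨1, hS2, 1, hT2, mul_one 1⟩, ?_,
      hS4.image2 hT4 (fun y => PM.id.mul (PM.const y)) fun x => (PM.const x).mul PM.id⟩
    rintro _ ⟨s, hs, t, ht, rfl⟩
    exact W.mul (hS3 s hs) (hT3 t ht)
  | inv _ ihx =>
    obtain ⟨S, hS1, hS2, hS3, hS4⟩ := ihx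
    refine ⟨(fun x => x⁻¹) '' S, ⟨_, hS1, rfl⟩, ⟨1, hS2, inv_one⟩, ?_, hS4.image PM.id.inv⟩
    rintro _ ⟨s, hs, rfl⟩
    exact W.inv (hS3 s hs)
  | comm _ _ ihx ihy =>
    obtain ⟨S, hS1, hS2, hS3, hS4⟩ := ihx
    obtain ⟨T, hT1, hT2, hT3, hT4⟩ := ihy
    refine ⟨Set.image2 (fun x y => ⁅x, y⁆) S T, ⟨_, hS1, _, hT1, rfl⟩,
      ⟨1, hS2, 1, hT2, commutatorElement_one_right 1⟩, ?_,
      hS4.image2 hT4 (fun y => PM.id.comm (PM.const y)) fun x => (PM.const x).comm PM.id⟩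
    rintro _ ⟨s, hs, t, ht, rfl⟩
    exact W.comm (hS3 s hs) (hT3 t ht)
  | pow _ ihx =>
    obtain ⟨S, hS1, hS2, hS3, hS4⟩ := ihx
    refine ⟨(fun x => x ^ p) '' S, ⟨_, hS1, rfl⟩, ⟨1, hS2, one_pow p⟩, ?_, hS4.image (PM.id.pow p)⟩
    rintro _ ⟨s, hs, rfl⟩
    exact W.pow (hS3 s hs)
  | mono _ ihx =>
    obtain ⟨S, hS1, hS2, hS3, hS4⟩ := ihx
    exact ⟨S, hS1, hS2, fun y hy => (hS3 y hy).mono, hS4⟩

theorem W.irrP [Infinite k] (n : ℕ) : IrrP {x | W G p m b n x} := by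
  refine ⟨⟨1, W.one n⟩, fun f g h => ?_⟩
  by_contra hno
  push Not at hno
  obtain ⟨⟨x, hx, hf⟩, y, hy, hg⟩ := hno
  obtain ⟨S, hS1, hS2, hS3, hS4⟩ := W.exists_irr hx
  obtain ⟨T, hT1, hT2, hT3, hT4⟩ := W.exists_irr hy
  have h1 := hS4.image2 hT4 (F := fun x y => x * y) (fun y => PM.id.mul (PM.const y))
    fun x => (PM.const x).mul PM.id
  rcases h1.2 f g (by
    rintro _ ⟨s, hs, t, ht, rfl⟩
    exact h _ (W.mul (hS3 s hs) (hT3 t ht))) with h2 | h2
  · exact hf (h2 x ⟨x, hS1, 1, hT2, mul_one x⟩)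
  · exact hg (h2 y ⟨1, hS2, y, hT1, one_mul y⟩)

/-! ### Unipotent homomorphisms -/

section Uni

variable [Infinite k] {σ : G.Pt k →* G.Pt R}

/-- `σ(u) u⁻¹` is one step deeper. -/
def DP (p m : ℕ) (b : ℕ → ℕ) (σ : G.Pt k →* G.Pt R) (n : ℕ) (u : G.Pt k) : Prop :=
  σ u * (G.incl R u)⁻¹ ∈ RW G p m b R (n + 1)

omit [Infinite k] in
theorem DP.anti {n n' : ℕ} {u : G.Pt k} (h : DP p m b σ n u) (hn : n' ≤ n) : DP p m b σ n' u :=
  RW_anti (by omega) h

theorem DP.mul (hb : b 0 = 0) {n : ℕ} {u v : G.Pt k} (hu : DP p m b σ n u)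
    (hv : DP p m b σ n v) : DP p m b σ n (u * v) := by
  have h1 : σ (u * v) * (G.incl R (u * v))⁻¹ =
      σ u * (G.incl R u)⁻¹ * (G.incl R u * (σ v * (G.incl R v)⁻¹) * (G.incl R u)⁻¹) := by
    rw [map_mul, map_mul]
    group
  rw [DP, h1]
  exact mul_mem hu ((RW_normal hb (n + 1)).conj_mem _ hv _)

theorem DP.inv (hb : b 0 = 0) {n : ℕ} {u : G.Pt k} (hu : DP p m b σ n u) :
    DP p m b σ n u⁻¹ := by
  have h1 : σ u⁻¹ * (G.incl R u⁻¹)⁻¹ =
      (G.incl R u)⁻¹ * (σ u * (G.incl R u)⁻¹)⁻¹ * ((G.incl R u)⁻¹)⁻¹ := by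
    rw [map_inv, map_inv]
    group
  rw [DP, h1]
  exact (RW_normal hb (n + 1)).conj_mem _ (inv_mem hu) _

omit [Infinite k] in
theorem DP.one {n : ℕ} : DP p m b σ n 1 := by
  rw [DP, map_one, map_one, inv_one, mul_one]
  exact one_mem _

theorem DP.comm (hb : b 0 = 0) {a c : ℕ} {x y : G.Pt k} (hx : W G p m b a x)
    (hy : W G p m b c y) (hdx : DP p m b σ a x) (hdy : DP p m b σ c y) :
    DP p m b σ (a + c + m) ⁅x, y⁆ := by
  have := RW_normal (G := G) (p := p) (m := m) (R := R) hb (a + c + m + 1)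
  set H := RW G p m b R (a + c + m + 1) with hH
  set q : G.Pt R →* G.Pt R ⧸ H := QuotientGroup.mk' H with hq
  have hone : ∀ z ∈ H, q z = 1 := fun z hz => (QuotientGroup.eq_one_iff z).2 hz
  have hcm : ∀ z z' : G.Pt R, ⁅z, z'⁆ ∈ H → Commute (q z) (q z') := fun z z' h =>
    commutatorElement_eq_one_iff_commute.1 (by
      rw [← map_commutatorElement]
      exact hone _ h)
  set x' := σ x * (G.incl R x)⁻¹ with hx'
  set y' := σ y * (G.incl R y)⁻¹ with hy'
  have ex : σ x = x' * G.incl R x := by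
    rw [hx', inv_mul_cancel_right]
  have ey : σ y = y' * G.incl R y := by
    rw [hy', inv_mul_cancel_right]
  have mx : G.incl R x ∈ RW G p m b R a := incl_mem_RW hx
  have my : G.incl R y ∈ RW G p m b R c := incl_mem_RW hy
  have mxy := RW_comm mx my
  have h1 : q (σ ⁅x, y⁆) = q (G.incl R ⁅x, y⁆) := by
    rw [map_commutatorElement, map_commutatorElement, map_commutatorElement,
      map_commutatorElement, ex, ey, map_mul, map_mul]
    refine comm_mul_mul (hcm _ _ (RW_anti (by omega) (RW_comm hdx my)))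
      (hcm _ _ (RW_anti (by omega) (RW_comm hdx hdy)))
      (hcm _ _ (RW_anti (by omega) (RW_comm hdy mx))) ?_ ?_
    · rw [← map_commutatorElement]
      exact hcm _ _ (RW_anti (by omega) (RW_comm hdx mxy))
    · rw [← map_commutatorElement]
      exact hcm _ _ (RW_anti (by omega) (RW_comm hdy mxy))
  rw [DP]
  refine (QuotientGroup.eq_one_iff (N := H) _).1 ?_
  change q _ = 1
  rw [map_mul, map_inv, h1, mul_inv_cancel]

theorem DP.pow (hb : b 0 = 0) {a : ℕ} {x : G.Pt k} (hx : W G p m b a x)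
    (hdx : DP p m b σ a x) : DP p m b σ (a + m) (x ^ p) := by
  have := RW_normal (G := G) (p := p) (m := m) (R := R) hb (a + m + 1)
  set H := RW G p m b R (a + m + 1) with hH
  set q : G.Pt R →* G.Pt R ⧸ H := QuotientGroup.mk' H with hq
  have hone : ∀ z ∈ H, q z = 1 := fun z hz => (QuotientGroup.eq_one_iff z).2 hz
  set x' := σ x * (G.incl R x)⁻¹ with hx'
  have ex : σ x = x' * G.incl R x := by
    rw [hx', inv_mul_cancel_right]
  have mx : G.incl R x ∈ RW G p m b R a := incl_mem_RW hx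
  have hc : Commute (q x') (q (G.incl R x)) := commutatorElement_eq_one_iff_commute.1 (by
    rw [← map_commutatorElement]
    exact hone _ (RW_anti (by omega) (RW_comm hdx mx)))
  have h1 : q (σ (x ^ p)) = q (G.incl R (x ^ p)) := by
    rw [map_pow, map_pow, map_pow, map_pow, ex, map_mul, hc.mul_pow, ← map_pow,
      hone _ (RW_anti (by omega) (RW_pow hdx)), one_mul]
  rw [DP]
  refine (QuotientGroup.eq_one_iff (N := H) _).1 ?_
  change q _ = 1
  rw [map_mul, map_inv, h1, mul_inv_cancel]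

variable (G p) in
/-- The subgroup generated by the commutators and the `p`-th powers. -/
noncomputable def Frat : Subgroup (G.Pt k) :=
  Subgroup.closure ({z | ∃ x y : G.Pt k, z = ⁅x, y⁆} ∪ {z | ∃ x : G.Pt k, z = x ^ p})

/-- **The step.** -/
theorem W.dp (hb : b 0 = 0) (hm : 0 < m) (hFr : (G.V k (b m) : Set (G.Pt k)) ⊆ RP (Frat G p) k)
    {φ : Fin N → MvPolynomial (Fin N) R} (hφ : ∀ u : G.Pt k,
      σ u = ⟨fun j => eval (G.incl R u).co (φ j)⟩)
    (hs : ∀ i < m, ∀ u ∈ G.V k (b i), σ u * (G.incl R u)⁻¹ ∈ G.V R (b (i + 1)))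
    {n : ℕ} {x : G.Pt k} (hx : W G p m b n x) : DP p m b σ n x := by
  have hV : ∀ i < m, ∀ u ∈ G.V k (b i), DP p m b σ i u := fun i hi u hu =>
    rp_mono (fun z hz => W.base (Nat.succ_le_of_lt hi) hz) (V_le_rp (hs i hi u hu))
  have h0 : ∀ u : G.Pt k, DP p m b σ 0 u := fun u => hV 0 hm u (by
    rw [hb, V_zero]
    exact Subgroup.mem_top u)
  have hFrat : ∀ u ∈ Frat G p, DP p m b σ m u := by
    intro u hu
    induction hu using Subgroup.closure_induction with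
    | mem u hu =>
      rcases hu with ⟨x, y, rfl⟩ | ⟨x, rfl⟩
      · exact (DP.comm hb (W.zero hb x) (W.zero hb y) (h0 x) (h0 y)).anti (by omega)
      · exact (DP.pow hb (W.zero hb x) (h0 x)).anti (by omega)
    | one => exact DP.one
    | mul u v _ _ hu hv => exact hu.mul hb hv
    | inv u _ hu => exact hu.inv hb
  induction hx with
  | @base i x hi hx =>
    rcases Nat.lt_or_ge i m with h | h
    · exact hV i h x hx
    · obtain rfl : i = m := le_antisymm hi h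
      have hPM : PM (G := G) fun x : Fin N → R => (⟨fun j => eval x (φ j)⟩ : G.Pt R) * (⟨x⟩)⁻¹ :=
        PM.mul (fun j => ⟨φ j, fun _ => rfl⟩) PM.id.inv
      intro f hf
      have h2 := rp_zero (F := fun x =>
        aeval ((⟨fun j => eval x (φ j)⟩ : G.Pt R) * (⟨x⟩)⁻¹).co f) (hPM.rpol f)
        (S := (Frat G p : Set (G.Pt k))) (fun s hs' => by
          have h3 := hFrat s hs' f hf
          rw [hφ s] at h3
          exact h3) (incl_mem_rp (R := R) (hFr hx))
      rw [hφ x]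
      exact h2
  | one n => exact DP.one
  | mul _ _ ihx ihy => exact ihx.mul hb ihy
  | inv _ ihx => exact ihx.inv hb
  | comm hx hy ihx ihy => exact DP.comm hb hx hy ihx ihy
  | pow hx ihx => exact DP.pow hb hx ihx
  | mono _ ihx => exact ihx.anti (Nat.le_succ _)

end Uni

/-- **THEOREM Z.** -/
theorem exists_Z [Infinite k] [CharP k p] (hN : 0 < N) (hb : b 0 = 0) (hm : 0 < m)
    (hFr : (G.V k (b m) : Set (G.Pt k)) ⊆ RP (Frat G p) k) :
    ∃ Z : Subgroup (G.Pt k), IrrP (Z : Set (G.Pt k)) ∧ (Z : Set (G.Pt k)).Infinite ∧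
      ∀ (R : Type w) [CommRing R] [Algebra k R], (∀ (g : G.Pt R), ∀ z ∈ Z,
        Commute g (G.incl R z)) ∧ ∀ (σ : G.Pt k →* G.Pt R) (φ : Fin N → MvPolynomial (Fin N) R),
        (∀ u : G.Pt k, σ u = ⟨fun j => eval (G.incl R u).co (φ j)⟩) →
        (∀ i < m, ∀ u ∈ G.V k (b i), σ u * (G.incl R u)⁻¹ ∈ G.V R (b (i + 1))) →
        ∀ z ∈ Z, σ z = G.incl R z := by
  classical
  -- the last nontrivial step
  have hex : ∃ n, ∀ x : G.Pt k, W G p m b n x → x = 1 := by
    obtain ⟨t, _, ht⟩ := W.mem_V (G := G) (p := p) (m := m) (b := b) N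
    refine ⟨t, fun x hx => ?_⟩
    have h1 := ht t x hx le_rfl
    rw [V_top le_rfl] at h1
    exact Subgroup.mem_bot.1 h1
  set n := Nat.find hex with hn
  have hn1 := Nat.find_spec hex
  rw [← hn] at hn1
  have hn0 : n ≠ 0 := by
    intro h0
    rw [h0] at hn1
    have h1 := hn1 ⟨fun _ => 1⟩ (W.zero hb _)
    have h2 := congrFun (congrArg Pt.co h1) ⟨0, hN⟩
    exact one_ne_zero h2
  obtain ⟨t, ht⟩ := Nat.exists_eq_succ_of_ne_zero hn0
  have ht1 : ∃ x : G.Pt k, W G p m b t x ∧ x ≠ 1 := by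
    by_contra hno
    push Not at hno
    have h1 : n ≤ t := Nat.find_min' hex hno
    omega
  have htriv : ∀ x : G.Pt k, W G p m b (t + 1) x → x = 1 := by
    rw [ht] at hn1
    exact hn1
  refine ⟨{ carrier := {x | W G p m b t x}
            one_mem' := W.one t
            mul_mem' := W.mul
            inv_mem' := W.inv }, W.irrP t, fun hfin => ?_, fun R _ _ => ⟨fun g z hz => ?_,
    fun σ φ hφ hs z hz => ?_⟩⟩
  · obtain ⟨x, hx, hx1⟩ := ht1
    have h1 := (W.irrP (G := G) (p := p) (m := m) (b := b) t).irr.subsingleton (by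
      refine (hfin.image Pt.co).subset ?_
      intro x hx
      exact ⟨⟨x⟩, hx, rfl⟩)
    exact hx1 (Pt.ext (h1 (show x.co ∈ _ from hx) (show (1 : G.Pt k).co ∈ _ from W.one t)))
  · have h1 := RW_comm (RW_zero (p := p) (m := m) hb g)
      (incl_mem_RW (R := R) (show W G p m b t z from hz))
    have h2 := RW_anti (n' := t + 1) (by omega) h1
    exact commutatorElement_eq_one_iff_commute.1 (eq_one_of_rp htriv h2)
  · have h1 := W.dp hb hm hFr hφ hs (show W G p m b t z from hz)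
    exact mul_inv_eq_one.1 (eq_one_of_rp htriv h1)

end Law

end Pool.Agent.TWGS
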