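import Pool.Agent.Lib.TWGS.Ser
import Pool.Agent.Lib.TWGS.Frat

/-!
# TEXT A, group side: THEOREM Z

`G` a triangular law on `k ^ N`, `N ≥ 1`, `k` infinite of characteristic `p`; the first `b m`
coordinates are additive, every polynomial homomorphism `G → k` is zero on `V (b m)`,
`0 = b 0, b 1, .., b m`, `m ≥ 1`. There is an irreducible infinite central subgroup `Z` which is
fixed, pointwise, by every polynomial homomorphism `σ : G(k) → G(R)` with
`σ(u) ≡ u` modulo `V (b (i + 1))` for all `u` in `V (b i)`, `i < m`.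
-/

set_option autoImplicit false

open MvPolynomial
open scoped commutatorElement

namespace Pool.Agent.TWGS

universe u w

namespace Law

variable {k : Type u} [Field k] {N : ℕ} {G : Law k N} {p m : ℕ} {b : ℕ → ℕ}

/-- The commutators and the `p`-th powers are dense in `V b`. -/
theorem V_le_frat [Infinite k] [Fact p.Prime] [CharP k p] {b : ℕ} (hb : b ≤ N) (h1 : G.Add b)
    (hX : ∀ χ : (Fin N → k) → k, RPol χ → (∀ x y : G.Pt k, χ (x * y).co = χ x.co + χ y.co) →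
      ∀ u ∈ G.V k b, χ u.co = 0) : (G.V k b : Set (G.Pt k)) ⊆ RP (Frat G p) k := by
  intro u hu f hf
  refine frat_dense (f := fun x => aeval x f) hb h1 hX ⟨f, fun _ => rfl⟩ (fun x hx => hf x ?_) hu
  refine Subgroup.closure_mono ?_ hx
  rintro z (⟨x, y, rfl⟩ | ⟨x, rfl⟩)
  · exact Or.inl ⟨x, y, rfl⟩
  · exact Or.inr ⟨x, rfl⟩

/-- **THEOREM Z.** -/
theorem theorem_Z [Infinite k] [Fact p.Prime] [CharP k p] (hN : 0 < N) (hb : b 0 = 0)
    (hm : 0 < m) (hbN : b m ≤ N) (h1 : G.Add (b m))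
    (hX : ∀ χ : (Fin N → k) → k, RPol χ → (∀ x y : G.Pt k, χ (x * y).co = χ x.co + χ y.co) →
      ∀ u ∈ G.V k (b m), χ u.co = 0) :
    ∃ Z : Subgroup (G.Pt k), IrrP (Z : Set (G.Pt k)) ∧ (Z : Set (G.Pt k)).Infinite ∧
      ∀ (R : Type w) [CommRing R] [Algebra k R], (∀ (g : G.Pt R), ∀ z ∈ Z,
        Commute g (G.incl R z)) ∧ ∀ (σ : G.Pt k →* G.Pt R) (φ : Fin N → MvPolynomial (Fin N) R),
        (∀ u : G.Pt k, σ u = ⟨fun j => eval (G.incl R u).co (φ j)⟩) →
        (∀ i < m, ∀ u ∈ G.V k (b i), σ u * (G.incl R u)⁻¹ ∈ G.V R (b (i + 1))) →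
        ∀ z ∈ Z, σ z = G.incl R z :=
  exists_Z (p := p) hN hb hm (V_le_frat hbN h1 hX)

end Law

end Pool.Agent.TWGS
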